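import Pool.Agent.Helper66_DF.StmtsE
import Pool.Agent.Helper66_D2.Stmts

/-!
# Squad DF: further statements

Text: `AWC_DF.md`.
-/

open scoped BigOperators

noncomputable section

namespace Pool.Agent.DF

open Pool.Agent.Helper51_AWC Pool.Agent.Helper79_WRA Pool.Agent.PP

/-- DFQ: the idempotent of the quotient and the good subgroups. -/
def DfqStmt : Prop := ∀ (ℓ : ℕ) (F : Type) [Field F], GoodF ℓ F → ∀ (G : Type) [Group G] [Finite G]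
  (N : Subgroup G) [N.Normal] (b e : G → F) (n : ℕ) (α : G →* Matrix (Fin n) (Fin n) F),
  NB ℓ N b → IsIrr (α.comp N.subtype) → ev (α.comp N.subtype) (fun x : N => b x) = 1 →
  IsIdem e → mulF e b = e → ∀ f : G ⧸ N → F,
  (∀ g : G, ∑ᶠ h : N, e (g * h) • α (g * h) = Matrix.scalar (Fin n) (f g)) →
  ∀ P : Subgroup G, Good ℓ N b P →
  (∃ x ∈ Subgroup.centralizer ((P.map (QuotientGroup.mk' N) : Subgroup (G ⧸ N)) : Set (G ⧸ N)),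
    f x ≠ 0) → ∃ g ∈ Subgroup.centralizer (P : Set G), e g ≠ 0

/-- The defect groups of the block of `ψ`, modulo `O_ℓ(N)`, lie in the class `𝒟`. -/
def DfIn (ℓ : ℕ) (M : Ideal (integralClosure ℤ ℂ)) (𝒟 : (Q : Type) → [Group Q] → Prop) {N : Type}
    [Group N] (ψ : N → ℂ) : Prop :=
  ∃ (x : N) (P : Subgroup N), red M (omega (MonoidHom.id N) ψ x) ≠ 0 ∧
    P ≤ Subgroup.centralizer ({x} : Set N) ∧ IsPGroup ℓ P ∧
    ¬ ℓ ∣ P.relIndex (Subgroup.centralizer ({x} : Set N)) ∧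
    ∃ (P₀ : Type) (_ : Group P₀) (f : P →* P₀), 𝒟 P₀ ∧ ∀ u : P, f u = 1 ↔ (u : N) ∈ opCore ℓ N

/-- FST: from the characters of `N` to `DfE`. -/
def FstStmt : Prop := ∀ (ℓ : ℕ), ℓ.Prime → ∀ (M : Ideal (integralClosure ℤ ℂ)) [M.IsMaximal],
  (ℓ : integralClosure ℤ ℂ) ∈ M →
  letI := Ideal.Quotient.field M
  ∀ 𝒟 : (Q : Type) → [Group Q] → Prop, SubCl 𝒟 → ∀ (G : Type) [Group G] [Finite G]
    [(opCore ℓ G).Normal] (N : Subgroup G), N.Normal →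
  ∀ χ ∈ Irr G, ∀ ψ ∈ Irr N, (∑ᶠ n : N, χ n * starRingEnd ℂ (ψ n)) ≠ 0 → DfIn ℓ M 𝒟 ψ →
  ∀ e : G → FF M, IsBlk e → res M e χ = 1 →
    DfE ℓ 𝒟 (H75.push (QuotientGroup.mk' (opCore ℓ G)) e)
      (N.map (QuotientGroup.mk' (opCore ℓ G)))

/-- FEN: from `DfE` to the characters of `D`. -/
def FenStmt : Prop := ∀ (ℓ : ℕ), ℓ.Prime → ∀ (M : Ideal (integralClosure ℤ ℂ)) [M.IsMaximal],
  (ℓ : integralClosure ℤ ℂ) ∈ M →
  letI := Ideal.Quotient.field M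
  ∀ 𝒟 : (Q : Type) → [Group Q] → Prop, ∀ (D : Type) [Group D] [Finite D],
  opCore ℓ D = ⊥ → ∀ f : D → FF M, IsBlk f → DfE ℓ 𝒟 f ⊤ →
  ∀ ϑ ∈ Irr D, res M f ϑ = 1 → DfIn ℓ M 𝒟 ϑ

end Pool.Agent.DF
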