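import Pool.Agent.Helper66_DF.Base
import Pool.Agent.Helper74_PP.Chf

/-!
# Squad DF: control of the defect groups and central extensions
-/

open scoped BigOperators

set_option linter.unusedSectionVars false

noncomputable section

namespace Pool.Agent.DF

open Pool.Agent.Helper51_AWC Pool.Agent.Helper79_WRA Pool.Agent.PP Pool.Agent.PP.H74

section lift

variable {ℓ : ℕ} {𝒟 : (Q : Type) → [Group Q] → Prop} {F E G : Type} [Field F] [Group E] [Group G]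
  [Finite E] [Finite G]

/-- the centraliser of the lift of an `ℓ`-subgroup -/
theorem lift_cent (hℓ : ℓ.Prime) (f : E →* G) (M : Subgroup E) (hM : M.Normal)
    (hc : ∀ k, f k = 1 → ∀ m ∈ M, k * m = m * k)
    (hk : ¬ ℓ ∣ Nat.card (f.ker ⊓ M : Subgroup E)) {D : Subgroup E} (hD : IsPGroup ℓ D)
    (hDM : D ≤ M) {x : E} (hx : f x ∈ Subgroup.centralizer ((D.map f : Subgroup G) : Set G)) :
    x ∈ Subgroup.centralizer (D : Set E) := by
  rw [Subgroup.mem_centralizer_iff]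
  intro y hy
  obtain ⟨k, hk1⟩ := pgroup_pow hD hy
  have h1 := Subgroup.mem_centralizer_iff.1 hx (f y) ⟨y, hy, rfl⟩
  have hz : f (x * y * x⁻¹ * y⁻¹) = 1 := by
    rw [map_mul, map_mul, map_mul, map_inv, map_inv, ← h1, mul_inv_cancel_right, mul_inv_cancel]
  have hzM : x * y * x⁻¹ * y⁻¹ ∈ M :=
    M.mul_mem (hM.conj_mem y (hDM hy) x) (M.inv_mem (hDM hy))
  have hcomm : Commute (x * y * x⁻¹ * y⁻¹) y := hc _ hz y (hDM hy)
  have hz1 : x * y * x⁻¹ * y⁻¹ = 1 := by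
    apply chf_ker_eq_one hℓ f M hk hz hzM (k := k)
    have h2 : (x * y * x⁻¹ * y⁻¹ * y) ^ ℓ ^ k = (x * y * x⁻¹ * y⁻¹) ^ ℓ ^ k := by
      rw [hcomm.mul_pow, hk1, mul_one]
    rw [← h2, inv_mul_cancel_right, conj_pow, hk1, mul_one, mul_inv_cancel]
  have h3 : x * y * x⁻¹ = y := by
    calc x * y * x⁻¹ = x * y * x⁻¹ * y⁻¹ * y := by group
      _ = y := by rw [hz1, one_mul]
  calc y * x = x * y * x⁻¹ * x := by rw [h3]
    _ = x * y := by group

/-- from a group to its image -/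
theorem DfE.push (h𝒟 : SubCl 𝒟) (hℓ : ℓ.Prime) (f : E →* G) (M : Subgroup E) (hM : M.Normal)
    (hc : ∀ k, f k = 1 → ∀ m ∈ M, k * m = m * k)
    (hk : ¬ ℓ ∣ Nat.card (f.ker ⊓ M : Subgroup E)) {ê : E → F} {e : G → F}
    (he : ∀ y, e y ≠ 0 → ∃ x, f x = y ∧ ê x ≠ 0) (h : DfE ℓ 𝒟 ê M) : DfE ℓ 𝒟 e (M.map f) := by
  intro Q hQ hp hg
  obtain ⟨g, hg, hg'⟩ := hg
  obtain ⟨D, hDM, hD, rfl⟩ := chf_lift hℓ f M hk hp hQ
  obtain ⟨x, rfl, hx⟩ := he g hg'
  have h1 := h D hDM hD ⟨x, lift_cent hℓ f M hM hc hk hD hDM hg, hx⟩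
  have hinj : Function.Injective (f.subgroupMap D) := by
    rw [injective_iff_map_eq_one]
    intro y hy
    obtain ⟨k, hk1⟩ := pgroup_pow hD y.2
    exact Subtype.ext (chf_ker_eq_one hℓ f M hk (congrArg Subtype.val hy) (hDM y.2) hk1)
  let i : D ≃* D.map f := MulEquiv.ofBijective (f.subgroupMap D)
    ⟨hinj, f.subgroupMap_surjective D⟩
  exact h𝒟 (D.map f) D i.symm.toMonoidHom i.symm.injective h1

/-- from a group to a central extension -/
theorem DfE.pull (h𝒟 : SubCl 𝒟) (hℓ : ℓ.Prime) (p : E →* G) (M : Subgroup E) {N : Subgroup G}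
    (hMN : M.map p ≤ N) (hk : ¬ ℓ ∣ Nat.card (p.ker ⊓ M : Subgroup E)) {ê : E → F} {e : G → F}
    (he : ∀ x, ê x ≠ 0 → e (p x) ≠ 0) (h : DfE ℓ 𝒟 e N) : DfE ℓ 𝒟 ê M := by
  intro Q hQ hp hg
  obtain ⟨g, hg, hg'⟩ := hg
  have h1 : 𝒟 (Q.map p) := by
    refine h (Q.map p) ((Subgroup.map_mono hQ).trans hMN) (hp.map p) ⟨p g, ?_, he g hg'⟩
    rw [Subgroup.mem_centralizer_iff]
    rintro _ ⟨q, hq, rfl⟩
    rw [← map_mul, ← map_mul, Subgroup.mem_centralizer_iff.1 hg q hq]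
  have hinj : Function.Injective (p.subgroupMap Q) := by
    rw [injective_iff_map_eq_one]
    intro y hy
    obtain ⟨k, hk1⟩ := pgroup_pow hp y.2
    exact Subtype.ext (chf_ker_eq_one hℓ p M hk (congrArg Subtype.val hy) (hQ y.2) hk1)
  exact h𝒟 Q (Q.map p) (p.subgroupMap Q) hinj h1

/-- a central kernel of order prime to `ℓ` -/
theorem not_dvd_inf {p : E →* G} (hk : ¬ ℓ ∣ Nat.card p.ker) (M : Subgroup E) :
    ¬ ℓ ∣ Nat.card (p.ker ⊓ M : Subgroup E) :=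
  fun h => hk (h.trans (Subgroup.card_dvd_of_le inf_le_left))

end lift

end Pool.Agent.DF
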