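import Pool.Agent.Helper66_DF.StmtsE2
import Pool.Agent.Helper66_DF.Lift
import Pool.Agent.Helper18_PP.Dzf

/-!
# Squad DF, module DZE: a normal subgroup with a block of defect zero
-/

open scoped BigOperators

set_option linter.unusedSectionVars false

noncomputable section

namespace Pool.Agent.DF

open Pool.Agent.Helper51_AWC Pool.Agent.Helper79_WRA Pool.Agent.PP
open Pool.Agent.PP.H18 (tr_stable dzb_equiv ev_equiv' mulF_supp step2 grp)

open Classical in
/-- the extension to a central extension with kernel of order prime to `ℓ` -/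
theorem step1E (hcov : CovStmt) (hcen : CenStmt) (hm : MatStmt) {ℓ : ℕ} {F : Type} [Field F]
    (hF : GoodF ℓ F) {G : Type} [Group G] [Finite G] (N M : Subgroup G) (b e : G → F)
    (hNB : NB ℓ N b) (he : IsIdem e) (heb : mulF e b = e) (hM : M.Normal) (hpos : Pos ℓ e M) :
    ∃ (E : Type) (_ : Group E) (_ : Finite E) (π : E →* G) (K : Subgroup E) (bE eE : E → F) (n : ℕ)
      (α : E →* Matrix (Fin n) (Fin n) F), Function.Surjective π ∧
      (∀ x, π x = 1 → x ∈ Subgroup.center E) ∧ ¬ ℓ ∣ Nat.card π.ker ∧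
      (∀ x ∈ K, π x = 1 → x = 1) ∧ K.map π = N ∧ NB ℓ K bE ∧ IsIrr (α.comp K.subtype) ∧
      ev (α.comp K.subtype) (fun x : K => bE x) = 1 ∧ IsIdem eE ∧ mulF eE bE = eE ∧
      Pos ℓ eE (M.comap π) ∧ (∀ x, eE x ≠ 0 → e (π x) ≠ 0) ∧
      YY ℓ (M.comap π) eE = Nat.card π.ker * YY ℓ M e := by
  obtain ⟨n, ρ, hρ, hρb⟩ := (hm ℓ F hF N _ hNB.2.2.2).1
  obtain ⟨E, i1, i2, π, α, hπ, hcentral, hprime, hinj, _, himp, hext⟩ := hcov ℓ F hF G N n ρ hNB.1 hρ
    (fun g c c' h => tr_stable hF hm hNB ρ hρ hρb g c c' h)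
  obtain ⟨hidem, _, hcm⟩ := hcen ℓ F hF E G π hπ hcentral hprime e he
  obtain ⟨hYY, hPos⟩ := hcm M hM
  have hα1 : ∀ x : E, α x * α x⁻¹ = 1 := fun x => by rw [← map_mul, mul_inv_cancel, map_one]
  have hα2 : ∀ x : E, α x⁻¹ * α x = 1 := fun x => by rw [← map_mul, inv_mul_cancel, map_one]
  let K : Subgroup E :=
    { carrier := {x | ∃ h : N, π x = h ∧ α x = ρ h}
      one_mem' := ⟨1, by rw [map_one]; rfl, by rw [map_one, map_one]⟩
      mul_mem' := by
        rintro x y ⟨h, h1, h2⟩ ⟨h', h1', h2'⟩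
        exact ⟨h * h', by rw [map_mul, h1, h1']; rfl, by rw [map_mul, map_mul, h2, h2']⟩
      inv_mem' := by
        rintro x ⟨h, h1, h2⟩
        refine ⟨h⁻¹, by rw [map_inv, h1]; rfl, ?_⟩
        have e1 : ρ h * ρ h⁻¹ = 1 := by rw [← map_mul, mul_inv_cancel, map_one]
        calc α x⁻¹ = α x⁻¹ * (α x * ρ h⁻¹) := by rw [h2, e1, mul_one]
          _ = ρ h⁻¹ := by rw [← mul_assoc, hα2, one_mul] }
  have hK : ∀ x, x ∈ K ↔ ∃ h : N, π x = h ∧ α x = ρ h := fun _ => Iff.rfl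
  have hKinj : ∀ x ∈ K, π x = 1 → x = 1 := by
    rintro x ⟨h, h1, h2⟩ hx
    have : h = 1 := Subtype.ext (by rw [← h1, hx]; rfl)
    apply hinj x hx
    rw [h2, this, map_one]
  have hKmap : K.map π = N := by
    ext y
    constructor
    · rintro ⟨x, ⟨h, h1, _⟩, rfl⟩
      rw [h1]; exact h.2
    · intro hy
      obtain ⟨x, h1, h2⟩ := hext ⟨y, hy⟩
      exact ⟨x, ⟨⟨y, hy⟩, h1, h2⟩, h1⟩
  let κ : K ≃* N := MulEquiv.ofBijective
    ((π.comp K.subtype).codRestrict N (fun x => by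
      obtain ⟨h, h1, _⟩ := x.2
      change π (x : E) ∈ N
      rw [h1]; exact h.2))
    ⟨by
      intro x y hxy
      have h1 : π x = π y := congrArg Subtype.val hxy
      have h2 : (x : E) * (y : E)⁻¹ = 1 := hKinj _ (K.mul_mem x.2 (K.inv_mem y.2))
        (by rw [map_mul, map_inv, h1, mul_inv_cancel])
      exact Subtype.ext (mul_inv_eq_one.1 h2),
    by
      intro y
      obtain ⟨x, h1, h2⟩ := hext y
      exact ⟨⟨x, y, h1, h2⟩, Subtype.ext h1⟩⟩
  have hκ : ∀ x : K, ((κ x : N) : G) = π x := fun _ => rfl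
  have hκα : ∀ x : K, (α.comp K.subtype) x = ρ (κ x) := by
    intro x
    obtain ⟨h, h1, h2⟩ := x.2
    have : κ x = h := Subtype.ext (by rw [hκ, h1])
    rw [this]; exact h2
  have hKnormal : K.Normal := by
    refine ⟨fun x hx g => ?_⟩
    obtain ⟨h, h1, h2⟩ := hx
    refine ⟨⟨π g * h * (π g)⁻¹, hNB.1.conj_mem h h.2 _⟩, ?_, ?_⟩
    · rw [map_mul, map_mul, map_inv, h1]
    · have h3 := himp g h ⟨π g * h * (π g)⁻¹, hNB.1.conj_mem h h.2 _⟩ rfl
      rw [map_mul, map_mul, h2, h3, mul_assoc, hα1, mul_one]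
  let bE : E → F := fun x => if x ∈ K then b (π x) else 0
  have hbE : ∀ x : K, bE x = b ((κ x : N) : G) := by
    intro x
    change (if (x : E) ∈ K then b (π x) else 0) = _
    rw [if_pos x.2, hκ]
  have hbE' : (fun x : K => bE x) = fun x : K => (fun y : N => b y) (κ x) := funext hbE
  refine ⟨E, i1, i2, π, K, bE, fun x => (Nat.card π.ker : F)⁻¹ * e (π x), n, α, hπ, hcentral,
    hprime, hKinj, hKmap, ⟨hKnormal, ?_, ?_, ?_⟩, ?_, ?_, hidem, ?_, hPos hpos, fun x hx h0 => hx (by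
      change (Nat.card π.ker : F)⁻¹ * e (π x) = 0
      rw [h0, mul_zero]), hYY⟩
  · intro x y
    change (if y * x * y⁻¹ ∈ K then b (π (y * x * y⁻¹)) else 0) = if x ∈ K then b (π x) else 0
    have h1 : y * x * y⁻¹ ∈ K ↔ x ∈ K := by
      constructor
      · intro h
        have := hKnormal.conj_mem _ h y⁻¹
        have e1 : y⁻¹ * (y * x * y⁻¹) * y⁻¹⁻¹ = x := by group
        rwa [e1] at this
      · exact fun h => hKnormal.conj_mem x h y
    by_cases hx : x ∈ K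
    · rw [if_pos (h1.2 hx), if_pos hx, map_mul, map_mul, map_inv, hNB.2.1]
    · rw [if_neg (fun h => hx (h1.1 h)), if_neg hx]
  · intro g hg
    exact if_neg hg
  · rw [hbE']
    exact dzb_equiv κ hNB.2.2.2
  · refine ⟨hρ.1, ?_⟩
    have : Set.range (α.comp K.subtype) = Set.range ρ := by
      ext A
      constructor
      · rintro ⟨x, rfl⟩; exact ⟨κ x, (hκα x).symm⟩
      · rintro ⟨x, rfl⟩; exact ⟨κ.symm x, by rw [hκα, MulEquiv.apply_symm_apply]⟩
    rw [this, hρ.2]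
  · rw [hbE']
    exact (ev_equiv' κ ρ (α.comp K.subtype) hκα (fun y : N => b y)).trans hρb
  · have := Fintype.ofFinite K
    have := Fintype.ofFinite N
    funext x
    have h1 : mulF e b (π x) = e (π x) := congrFun heb (π x)
    rw [← h1, mulF_supp K _ bE (fun g hg => if_neg hg), mulF_supp N e b hNB.2.2.1,
      finsum_eq_sum_of_fintype, finsum_eq_sum_of_fintype,
      ← Equiv.sum_comp κ.toEquiv (fun k : N => e (π x * (k : G)⁻¹) * b k), Finset.mul_sum]
    refine Finset.sum_congr rfl fun k _ => ?_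
    have e1 : κ.toEquiv k = κ k := rfl
    rw [e1, hbE, hκ, map_mul, map_inv, mul_assoc]


/-- the extendible case -/
theorem step2E (hnch : NchStmt) (hsup : SupStmt) (hnco : NcoStmt) (hdzq : DzqStmt)
    (hpsf : PsfStmt) (hdfq : DfqStmt) (hcmp : CmpStmt) {ℓ : ℕ} {F : Type} [Field F]
    (hF : GoodF ℓ F) {G : Type} [Group G] [Finite G]
    (N M : Subgroup G) [N.Normal] (b e : G → F) (n : ℕ) (α : G →* Matrix (Fin n) (Fin n) F)
    (hNB : NB ℓ N b) (hα : IsIrr (α.comp N.subtype))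
    (hαb : ev (α.comp N.subtype) (fun x : N => b x) = 1)
    (he : IsIdem e) (heb : mulF e b = e) (hM : M.Normal) (hNM : N ≤ M) (hpos : Pos ℓ e M) :
    ∃ f : G ⧸ N → F, IsIdem f ∧ Pos ℓ f (M.map (QuotientGroup.mk' N)) ∧
      (∀ 𝒟 : (Q : Type) → [Group Q] → Prop, SubCl 𝒟 → DfE ℓ 𝒟 e M →
        DfE ℓ 𝒟 f (M.map (QuotientGroup.mk' N))) ∧
      YY ℓ M e = (Nat.card N : ℤ) * YY ℓ (M.map (QuotientGroup.mk' N)) f := by
  classical
  have : Fact ℓ.Prime := ⟨hF.prime⟩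
  obtain ⟨f, hf, hfi, hfp⟩ := hpsf ℓ F hF G N b e n α hNB hα hαb he heb
  refine ⟨f, hfi, hfp M hM hNM hpos, ?_, ?_⟩
  · intro 𝒟 h𝒟 hd Q hQM hQ hg
    set T : Subgroup G := Q.comap (QuotientGroup.mk' N) with hT
    have hNT : N ≤ T := by
      intro x hx
      have h1 : QuotientGroup.mk' N x = 1 := (QuotientGroup.eq_one_iff x).2 hx
      change QuotientGroup.mk' N x ∈ Q
      rw [h1]
      exact Q.one_mem
    have hTQ : T.map (QuotientGroup.mk' N) = Q :=
      Subgroup.map_comap_eq_self_of_surjective (QuotientGroup.mk'_surjective N) Q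
    obtain ⟨k, hk⟩ := IsPGroup.iff_card.1 hQ
    have hidx : N.relIndex T = ℓ ^ k := by
      have h1 : (⊥ : Subgroup (G ⧸ N)).comap (QuotientGroup.mk' N) = N := by
        rw [MonoidHom.comap_bot, QuotientGroup.ker_mk']
      have h2 := Subgroup.relIndex_comap (⊥ : Subgroup (G ⧸ N)) (QuotientGroup.mk' N) T
      rw [h1, hTQ, Subgroup.relIndex_bot_left, hk] at h2
      exact h2
    obtain ⟨P, hP, hPN⟩ := (hcmp ℓ F hF G N T b hNB hNT ⟨k, hidx⟩).1
    have hPQ : P.map (QuotientGroup.mk' N) = Q := by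
      have h1 : (P ⊔ N).map (QuotientGroup.mk' N) = P.map (QuotientGroup.mk' N) := by
        rw [Subgroup.map_sup, (Subgroup.map_eq_bot_iff N).2 (by rw [QuotientGroup.ker_mk']),
          sup_bot_eq]
      rw [← h1, hPN, hTQ]
    have hPM : P ≤ M := by
      intro x hx
      have h1 : QuotientGroup.mk' N x ∈ M.map (QuotientGroup.mk' N) := by
        apply hQM
        rw [← hPQ]
        exact ⟨x, hx, rfl⟩
      obtain ⟨y, hy, hyx⟩ := h1
      have h2 : y⁻¹ * x ∈ N := QuotientGroup.eq.1 hyx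
      have h3 := M.mul_mem hy (hNM h2)
      rwa [mul_inv_cancel_left] at h3
    have h4 : 𝒟 P := by
      refine hd P hPM hP.1 (hdfq ℓ F hF G N b e n α hNB hα hαb he heb f hf P hP ?_)
      rw [hPQ]
      exact hg
    have hinj : Function.Injective ((QuotientGroup.mk' N).subgroupMap P) := by
      rw [injective_iff_map_eq_one]
      intro y hy
      have h5 : (y : G) ∈ N := (QuotientGroup.eq_one_iff (y : G)).1 (congrArg Subtype.val hy)
      have h6 : (y : G) ∈ P ⊓ N := ⟨y.2, h5⟩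
      rw [hP.2.1, Subgroup.mem_bot] at h6
      exact Subtype.ext h6
    let i : P ≃* P.map (QuotientGroup.mk' N) := MulEquiv.ofBijective _
      ⟨hinj, (QuotientGroup.mk' N).subgroupMap_surjective P⟩
    have h5 : 𝒟 (P.map (QuotientGroup.mk' N)) := h𝒟 _ P i.symm.toMonoidHom i.symm.injective h4
    rw [hPQ] at h5
    exact h5
  have e1 : YY ℓ M e = ∑ d ∈ (chainsOn (psubIn ℓ M) ⊥).filter NormalChain,
      (-1) ^ (d.card + 1) * ((Nat.card (stab d) : ℤ) * (lnum (stab d) e : ℤ)) :=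
    hnch ℓ G M (fun S _ => (Nat.card S : ℤ) * (lnum S e : ℤ))
  have e2 : YY ℓ (M.map (QuotientGroup.mk' N)) f =
      ∑ d ∈ (chainsOn (psubIn ℓ (M.map (QuotientGroup.mk' N))) ⊥).filter NormalChain,
      (-1) ^ (d.card + 1) * ((Nat.card (stab d) : ℤ) * (lnum (stab d) f : ℤ)) :=
    hnch ℓ (G ⧸ N) (M.map (QuotientGroup.mk' N)) (fun S _ => (Nat.card S : ℤ) * (lnum S f : ℤ))
  obtain ⟨h1, h2⟩ := hnco ℓ F hF G N M b hNB hM hNM
  have h3 := h2 (fun c => (lnum (stab c) e : ℤ)) (fun c => (lnum (stab c) f : ℤ)) (by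
    intro c hc hcn hcg
    obtain ⟨_, _, _, _, h4, _⟩ := h1 c hc hcn hcg
    rw [h4, hdzq ℓ F hF G N b e n α hNB hα hαb he heb f hfi hf c
      (H18.chainsOn_mono le_top hc) hcn hcg])
  rw [e1, e2, ← h3]
  symm
  apply Finset.sum_subset_zero_on_sdiff
  · intro c hc
    rw [Finset.mem_filter] at hc ⊢
    exact ⟨hc.1, hc.2.1⟩
  · intro c hc
    rw [Finset.mem_sdiff, Finset.mem_filter, Finset.mem_filter] at hc
    have hg : ¬ Good ℓ N b (top c) := fun hg => hc.2 ⟨hc.1.1, hc.1.2, hg⟩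
    rw [(hsup ℓ F hF G N b e hNB he heb).2.2 c (H18.chainsOn_mono le_top hc.1.1) hc.1.2 hg,
      Nat.cast_zero, mul_zero, mul_zero]
  · intro c _
    rfl

/-- DZE -/
theorem dzE (hdfq : DfqStmt) (hcmp : CmpStmt) (hcov : CovStmt) (hcen : CenStmt) (hm : MatStmt)
    (hnch : NchStmt) (hsup : SupStmt) (hnco : NcoStmt) (hdzq : DzqStmt) (hpsf : PsfStmt) :
    DzEStmt := by
  intro ℓ F _ hF G _ _ N M _ b e hNB hM hNM he heb hpos
  obtain ⟨E, i1, i2, π, K, bE, eE, n, α, hπ, hcentral, hprime, hKinj, hKmap, hNBE, hα, hαb, heE,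
    heEb, hposE, hev, hYY⟩ := step1E hcov hcen hm hF N M b e hNB he heb hM hpos
  have hKn : K.Normal := hNBE.1
  have hKM : K ≤ M.comap π := by
    intro x hx
    apply hNM
    rw [← hKmap]
    exact ⟨x, hx, rfl⟩
  obtain ⟨f, hf1, hf2, hfd, hf3⟩ := step2E hnch hsup hnco hdzq hpsf hdfq hcmp hF K (M.comap π) bE eE
    n α hNBE hα hαb heE heEb (hM.comap π) hKM hposE
  obtain ⟨h1, h2, h3, h4, h5, ⟨ψ, p1, p2⟩, φ, h6, h7, h8⟩ := grp π hπ hcentral K hKinj N M hKmap hM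
  refine ⟨E ⧸ K, inferInstance, inferInstance, (π.ker).map (QuotientGroup.mk' K),
    (M.comap π).map (QuotientGroup.mk' K), φ, ψ, f, p1, p2, h1, ?_, h3, h4, h6, h7, h8, hf1, hf2,
    ?_, ?_⟩
  · rw [h2]; exact hprime
  · intro 𝒟 h𝒟 hd
    exact hfd 𝒟 h𝒟 (DfE.pull h𝒟 hF.prime π (M.comap π) (Subgroup.map_comap_le π M)
      (not_dvd_inf hprime _) hev hd)
  · rw [h2, ← hYY, hf3, h5]

end Pool.Agent.DF
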