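import Pool.Agent.Helper66_DF.StmtsE
import Pool.Agent.Helper96_PP.Fnl

/-!
# Squad DF, module FNLE: the end of the proof of S1, in the group `D`
-/

open scoped BigOperators

noncomputable section

namespace Pool.Agent.DF

open Pool.Agent.Helper51_AWC Pool.Agent.Helper79_WRA Pool.Agent.Helper79_WRA.H91 Pool.Agent.PP
open Pool.Agent.PP.H96

/-- FNL -/
theorem fnlE : FnlEStmt := by
  intro ℓ _ 𝒟 h𝒟 F _ hF D _ _ M hM hCM hZ hZM hg hlt f hf hp hdf htop
  have h0 : YY ℓ ⊤ f = 0 := htop (H94.pos2 ℓ F hF D M hM f hf hp)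
  rw [← rel_eq_top hF M hM f hf, h0]
  intro c hc1 hc2 hc3 hc4
  have hcm := mem_chainsOn.1 hc1
  obtain ⟨t1, t2⟩ := H94.top_mem hcm.2.2 ⟨_, hcm.2.1⟩
  have htp : IsPGroup ℓ (top c) := (mem_psubIn.1 (hcm.1 t1)).2
  have hX1 := centralizer_top_le t2
  have hX2 : stab c ≤ Subgroup.normalizer ((top c : Subgroup D) : Set D) := by
    intro x hx
    exact (H94.mem_stab'.1 hx) _ t1
  have hidem : IsIdem (fun t : stab c => br (top c) f t) :=
    (H20.brm ℓ F hF D (top c) (stab c) htp hX1 hX2).2.2 f hf
  have hcent : cent M c = Subgroup.centralizer ((top c : Subgroup D) : Set D) ⊓ M :=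
    H46.cent_eq hc1 M
  have hposc : Pos ℓ (fun t : stab c => br (top c) f t) ((cent M c).subgroupOf (stab c)) := by
    rw [hcent]
    exact H66.ps1 ℓ F hF D (top c) M htp hM hc3 f hf hp (stab c) hX1 hX2
  have hnorm : ((cent M c).subgroupOf (stab c)).Normal := by
    constructor
    intro x hx g
    rw [Subgroup.mem_subgroupOf] at hx ⊢
    exact Pool.Agent.Helper79_WRA.H46.conj_mem_cent hM g.2 hx
  have hcle : cent M c ≤ M := inf_le_left
  have hZX : Subgroup.center D ≤ stab c :=
    (Subgroup.center_le_centralizer _).trans hX1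
  have hZc : Subgroup.center D ≤ cent M c := by
    rw [hcent]
    exact le_inf (Subgroup.center_le_centralizer _) hZM
  have hlt' : cent M c < M := by
    refine lt_of_le_of_ne hcle ?_
    intro h
    apply hc4
    -- `P` centralises `M`, so `P ≤ Z(D)` is an `ℓ'`-group
    have h1 : top c ≤ Subgroup.center D := by
      rw [← hCM]
      intro x hx
      rw [Subgroup.mem_centralizer_iff]
      intro y hy
      have h2 : y ∈ cent M c := by rw [h]; exact hy
      exact ((H91.mem_cent.1 h2).2 _ t1 x hx).symm
    have h2 : Nat.card (top c) ∣ Nat.card (Subgroup.center D) := Subgroup.card_dvd_of_le h1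
    by_contra hne
    have h3 : Nontrivial (top c) := (Subgroup.nontrivial_iff_ne_bot _).2 hne
    obtain ⟨n, hn, hn'⟩ := htp.nontrivial_iff_card.1 h3
    apply hZ
    refine dvd_trans ?_ h2
    rw [hn']
    exact dvd_pow_self _ hn.ne'
  have hmu : mu ((cent M c).subgroupOf (stab c)) < mu M := by
    have h1 : mu ((cent M c).subgroupOf (stab c)) ≤ (Subgroup.center D).relIndex (cent M c) := by
      have h2 : ((Subgroup.center D).subgroupOf (stab c)) ≤ Subgroup.center (stab c) := by
        intro x hx
        rw [Subgroup.mem_center_iff]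
        intro y
        exact Subtype.ext (Subgroup.mem_center_iff.1 hx y)
      have h3 : ((Subgroup.center D).subgroupOf (stab c)).relIndex
          ((cent M c).subgroupOf (stab c)) = (Subgroup.center D).relIndex (cent M c) :=
        Subgroup.relIndex_subgroupOf (hcent ▸ (inf_le_left.trans hX1))
      unfold mu
      rw [← h3]
      apply Nat.le_of_dvd
      · exact Nat.pos_of_ne_zero Subgroup.index_ne_zero_of_finite
      · exact Subgroup.relIndex_dvd_of_le_left _ h2
    refine lt_of_le_of_lt h1 ?_
    unfold mu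
    have h4 := Subgroup.relIndex_mul_relIndex _ _ _ hZc hcle
    have h5 : (cent M c).relIndex M ≠ 1 := by
      intro h6
      rw [Subgroup.relIndex_eq_one] at h6
      exact absurd h6 (not_le_of_gt hlt')
    have h6 : (cent M c).relIndex M ≠ 0 := Subgroup.index_ne_zero_of_finite
    have h7 : (Subgroup.center D).relIndex (cent M c) ≠ 0 := Subgroup.index_ne_zero_of_finite
    rw [← h4]
    have h8 : 2 ≤ (cent M c).relIndex M := by omega
    nlinarith [Nat.pos_of_ne_zero h7]
  exact hlt _ _ hnorm hmu (hg.subgroupOf _ hcle) _ hidem hposc (hdf.br h𝒟 (top c) (by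
    rw [Subgroup.subgroupOf_map_subtype]
    exact inf_le_left.trans hcle))

end Pool.Agent.DF
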