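import Pool.Agent.Helper66_DF.StmtsE
import Pool.Agent.Helper9_PP.Lq

/-!
# Squad DF, module LQE: normal subgroups of index `ℓ`
-/

open scoped BigOperators

noncomputable section

namespace Pool.Agent.DF

open Pool.Agent.Helper51_AWC Pool.Agent.Helper79_WRA Pool.Agent.PP Pool.Agent.PP.H9

section cent

variable {ℓ : ℕ} {𝒟 : (Q : Type) → [Group Q] → Prop} {F : Type} [Field F] {X : Type} [Group X]
  [Finite X]

/-- the hypothesis of the relative theorem of Knörr and Robinson, from the induction -/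
theorem hyp_rkrE (h𝒟 : SubCl 𝒟) (hps : Ps1Stmt) (hB : BrmStmt) (hF : GoodF ℓ F) (Y : Subgroup X)
    (hC : ¬ ℓ ∣ Nat.card (Subgroup.centralizer (Y : Set X)))
    (ih : ∀ (H : Type) [Group H] [Finite H] (i : H →* X) (Y' : Subgroup H), Function.Injective i →
      Y'.Normal → Y'.map i ≤ Y → mu Y' < mu Y → YHE ℓ 𝒟 F Y')
    {G : Type} [Group G] [Finite G] (j : G →* X) (hj : Function.Injective j) (Z : Subgroup G)
    (hZ : Z.Normal) (hZY : Z.map j = Y) (e : G → F) (he : IsIdem e) (hp : Pos ℓ e Z)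
    (hdf : DfE ℓ 𝒟 e Z) (u : G)
    (hu1 : u ≠ 1) (hu : ∃ n : ℕ, u ^ ℓ ^ n = 1) (h0 : Subgroup.zpowers u ⊓ Z = ⊥) :
    YY ℓ ((Subgroup.centralizer ({u} : Set G) ⊓ Z).subgroupOf
      (Subgroup.centralizer ({u} : Set G)))
      (fun t : Subgroup.centralizer ({u} : Set G) => e t) = 0 := by
  set C : Subgroup G := Subgroup.centralizer ({u} : Set G) with hCdef
  have hmap : ((C ⊓ Z).subgroupOf C).map (j.comp C.subtype) =
      Subgroup.centralizer ({j u} : Set X) ⊓ Y := by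
    rw [← Subgroup.map_map, Subgroup.subgroupOf_map_subtype]
    ext t
    rw [Subgroup.mem_map, Subgroup.mem_inf, Subgroup.mem_centralizer_singleton_iff]
    constructor
    · rintro ⟨z, hz, rfl⟩
      have hz1 : z ∈ C := hz.2
      have hz2 : z ∈ Z := hz.1.2
      rw [hCdef, Subgroup.mem_centralizer_singleton_iff] at hz1
      refine ⟨?_, ?_⟩
      · rw [← map_mul, ← map_mul, hz1]
      · rw [← hZY]
        exact ⟨z, hz2, rfl⟩
    · rintro ⟨h1, h2⟩
      rw [← hZY] at h2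
      obtain ⟨z, hz, rfl⟩ := h2
      have hz1 : z ∈ C := by
        rw [hCdef, Subgroup.mem_centralizer_singleton_iff]
        apply hj
        rw [map_mul, map_mul]
        exact h1
      exact ⟨z, ⟨⟨hz1, hz⟩, hz1⟩, rfl⟩
  have hju : ∃ n : ℕ, (j u) ^ ℓ ^ n = 1 := by
    obtain ⟨n, hn⟩ := hu
    exact ⟨n, by rw [← map_pow, hn, map_one]⟩
  have hju1 : j u ≠ 1 := by
    intro h
    exact hu1 (hj (h.trans (map_one j).symm))
  have hnorm : ((C ⊓ Z).subgroupOf C).Normal := by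
    have h1 : (C ⊓ Z).subgroupOf C = Z.subgroupOf C := by
      ext t
      rw [Subgroup.mem_subgroupOf, Subgroup.mem_subgroupOf, Subgroup.mem_inf]
      exact ⟨fun h => h.2, fun h => ⟨t.2, h⟩⟩
    rw [h1]
    exact hZ.subgroupOf _
  have hinj : Function.Injective (j.comp C.subtype) :=
    hj.comp C.subtype_injective
  refine ih C (j.comp C.subtype) ((C ⊓ Z).subgroupOf C) hinj hnorm ?_ ?_ _
    (H67.idem_cent hB hF he hu) ?_ (hdf.sub h𝒟 ?_)
  · rw [hmap]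
    exact inf_le_right
  · exact mu_lt Y (j.comp C.subtype) hinj (j u) (not_cent hF.prime hC hju1 hju) _ hmap
  · have h1 := hps ℓ F hF G (Subgroup.zpowers u) Z (H97.isPGroup_zp hu) hZ h0 e he hp C
      (cent_zp u).le (fun g hg => H97.cent_le_norm hg)
    rw [cent_zp, ← hCdef] at h1
    have h3 : (fun t : C => br (Subgroup.zpowers u) e t) = fun t : C => e t := by
      funext t
      unfold br
      rw [if_pos]
      rw [cent_zp]
      exact t.2
    rw [h3] at h1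
    exact h1
  · rw [Subgroup.subgroupOf_map_subtype]
    exact inf_le_left.trans inf_le_right

end cent

section lq

variable {𝒟 : (Q : Type) → [Group Q] → Prop}

/-- the alternating sums of `X` and of the normal subgroup `X₀` of index `ℓ` agree -/
theorem lq_eqE (h𝒟 : SubCl 𝒟) (hrkr : RkrStmt) (hlqr : LqrStmt) (hps : Ps1Stmt) (hB : BrmStmt)
    (hcux : CuxStmt) (hosi : OsiStmt) (ℓ : ℕ) (F : Type) [Field F] (hF : GoodF ℓ F)
    (X : Type) [Group X] [Finite X] (Y X₀ : Subgroup X) (hY : Y.Normal) (hn : X₀.Normal)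
    (hYX : Y ≤ X₀) (hi : X₀.index = ℓ)
    (hC : ¬ ℓ ∣ Nat.card (Subgroup.centralizer (Y : Set X)))
    (ih : ∀ (H : Type) [Group H] [Finite H] (i : H →* X) (Y' : Subgroup H), Function.Injective i →
      Y'.Normal → Y'.map i ≤ Y → mu Y' < mu Y → YHE ℓ 𝒟 F Y')
    (e : X → F) (he : IsIdem e) (hp : Pos ℓ e Y) (hdf : DfE ℓ 𝒟 e Y) :
    YY ℓ Y e = YY ℓ (Y.subgroupOf X₀) (fun t : X₀ => e t) := by
  have hsupp : ∀ x, x ∉ X₀ → e x = 0 := fun x hx => supp_idem hosi hF hn hi he hx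
  have he₀ : IsIdem (fun t : X₀ => e t) := idem_res he hsupp
  have hp₀ : Pos ℓ (fun t : X₀ => e t) (Y.subgroupOf X₀) := pos_res hYX hp
  have hdf₀ : DfE ℓ 𝒟 (fun t : X₀ => e t) (Y.subgroupOf X₀) := hdf.sub h𝒟 (by
    rw [Subgroup.subgroupOf_map_subtype]
    exact inf_le_left)
  obtain ⟨h1, h2⟩ := hrkr ℓ F hF X Y hY e he (fun u hu1 hu h0 =>
    hyp_rkrE h𝒟 hps hB hF Y hC ih (MonoidHom.id X) Function.injective_id Y hY
      (Subgroup.map_id Y) e he hp hdf u hu1 hu h0)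
  have h3 := h2 X₀ hn hYX ⟨1, by rw [hi, pow_one]⟩
  have h4 := (hrkr ℓ F hF X₀ (Y.subgroupOf X₀) (hY.subgroupOf X₀) (fun t : X₀ => e t) he₀
    (fun u hu1 hu h0 => hyp_rkrE h𝒟 hps hB hF Y hC ih X₀.subtype X₀.subtype_injective
      (Y.subgroupOf X₀) (hY.subgroupOf X₀)
      (by rw [Subgroup.subgroupOf_map_subtype, inf_eq_left.2 hYX]) (fun t : X₀ => e t) he₀ hp₀
      hdf₀ u hu1 hu h0)).1
  have h5 := (hcux ℓ F X X₀ Y hYX e).2
  have hl : (ℓ : ℤ) ≠ 0 := Nat.cast_ne_zero.2 hF.prime.ne_zero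
  rw [← h1, ← h4, ← h5]
  apply mul_left_cancel₀ hl
  have h6 : (ℓ : ℤ) * ∑ d ∈ chainsOn (psubIn ℓ Y) ⊥, (-1) ^ (d.card + 1) *
      ((Nat.card (stab d) : ℤ) * (rk (fun t : stab d => br (top d) e t) (cfs F (stab d)) : ℤ)) =
      (ℓ : ℤ) * ∑ d ∈ chainsOn (psubIn ℓ Y) ⊥, (-1) ^ (d.card + 1) *
      ((Nat.card ↥(X₀ ⊓ stab d) : ℤ) *
      (rk (fun t : ↥(X₀ ⊓ stab d) => br (top d) e t) (cfs F ↥(X₀ ⊓ stab d)) : ℤ)) +
      ((ℓ : ℤ) + 1) * ∑ d ∈ chainsOn (psubIn ℓ Y) ⊥, (-1) ^ (d.card + 1) *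
      ((Nat.card (stab d) : ℤ) *
      (rk (fun t : stab d => br (top d) e t) (cfsO F (X₀.subgroupOf (stab d))) : ℤ)) := by
    rw [Finset.mul_sum, Finset.mul_sum, Finset.mul_sum, ← Finset.sum_add_distrib]
    refine Finset.sum_congr rfl fun d hd => ?_
    have h7 := congrArg (Nat.cast : ℕ → ℤ)
      (term_id hlqr hB hosi hF hn hi he (H67.chainsOn_top hd))
    push_cast at h7
    rw [mul_left_comm, h7]
    ring
  rw [h6, h3, mul_zero, add_zero]

/-- **LQ** -/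
theorem lqE (hrkr : RkrStmt) (hlqr : LqrStmt) (hps : Ps1Stmt) (hB : BrmStmt)
    (hcux : CuxStmt) (hosi : OsiStmt) : LqEStmt := by
  intro ℓ _ 𝒟 h𝒟 F _ hF X _ _ Y X₀ hY hn hYX hi hC ih e he hp hdf h
  rw [lq_eqE h𝒟 hrkr hlqr hps hB hcux hosi ℓ F hF X Y X₀ hY hn hYX hi hC ih e he hp hdf]
  exact h

end lq

end Pool.Agent.DF
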