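import Pool.Agent.Helper66_DF.StmtsE
import Pool.Agent.Helper17_PP.Lqn

/-!
# Squad DF, module LQNE: normal subgroups of index a power of `ℓ`
-/

open scoped BigOperators

noncomputable section

namespace Pool.Agent.DF

open Pool.Agent.Helper51_AWC Pool.Agent.Helper79_WRA Pool.Agent.PP Pool.Agent.PP.H17

/-- LQN -/
theorem lqnE (hOSI : OsiStmt) (hLQ : LqEStmt) : LqnEStmt := by
  classical
  intro ℓ hl 𝒟 h𝒟 F _ hF
  have key : ∀ (n : ℕ) (X : Type) [Group X] [Finite X] (Y X₀ : Subgroup X), Y.Normal → X₀.Normal →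
      Y ≤ X₀ → X₀.index = ℓ ^ n → ¬ ℓ ∣ Nat.card (Subgroup.centralizer (Y : Set X)) →
      (∀ (H : Type) [Group H] [Finite H] (i : H →* X) (Y' : Subgroup H), Function.Injective i →
        Y'.Normal → Y'.map i ≤ Y → mu Y' < mu Y → YHE ℓ 𝒟 F Y') →
      ∀ e : X → F, IsIdem e → Pos ℓ e Y → DfE ℓ 𝒟 e Y →
        YY ℓ (Y.subgroupOf X₀) (fun t : X₀ => e t) = 0 → YY ℓ Y e = 0 := by
    intro n
    induction n with
    | zero =>
      intro X _ _ Y X₀ _ _ hYX h0 _ _ e _ _ _ hYY
      rw [pow_zero, Subgroup.index_eq_one] at h0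
      rw [H75.YY_subgroup ℓ X₀ Y hYX e, h0] at hYY
      simp only [inf_top_eq] at hYY
      exact hYY
    | succ n ih =>
      intro X _ _ Y X₀ hY hX₀ hYX h0 hC hIH e he hpos hdf hYY
      obtain ⟨X₁, hX₁, h01, h1⟩ := exists_index X₀ h0
      have hYX₁ : Y ≤ X₁ := hYX.trans h01
      have hs : ∀ t, t ∉ X₁ → e t = 0 := by
        intro t ht
        apply hOSI ℓ F hF X e he t
        intro hreg
        exact ht (reg_mem hX₁ h1 hreg)
      refine hLQ ℓ 𝒟 h𝒟 F hF X Y X₁ hY hX₁ hYX₁ h1 hC hIH e he hpos hdf ?_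
      refine ih X₁ (Y.subgroupOf X₁) (X₀.subgroupOf X₁) (hY.subgroupOf X₁) (hX₀.subgroupOf X₁)
        (Subgroup.comap_mono hYX) ?_ ?_ ?_ (fun t : X₁ => e t) (idem_sub he hs)
        (pos_sub hYX₁ hpos) (hdf.sub h𝒟 (by
          rw [Subgroup.subgroupOf_map_subtype]
          exact inf_le_left)) ?_
      · have h2 : (X₀.subgroupOf X₁).index * X₁.index = X₀.index :=
          Subgroup.relIndex_mul_index h01
        rw [h1, h0, pow_succ] at h2
        exact Nat.eq_of_mul_eq_mul_right hl.out.pos h2
      · intro hdiv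
        apply hC
        refine hdiv.trans ?_
        let f : Subgroup.centralizer ((Y.subgroupOf X₁ : Subgroup X₁) : Set X₁) →*
            Subgroup.centralizer (Y : Set X) :=
          { toFun := fun z => ⟨z.1.1, by
              rw [Subgroup.mem_centralizer_iff]
              intro y hy
              have := Subgroup.mem_centralizer_iff.1 z.2 ⟨y, hYX₁ hy⟩ hy
              exact congrArg Subtype.val this⟩
            map_one' := rfl
            map_mul' := fun _ _ => rfl }
        have hf : Function.Injective f := by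
          intro a b hab
          have h3 : ((f a : Subgroup.centralizer (Y : Set X)) : X) = (f b : X) := by rw [hab]
          exact Subtype.ext (Subtype.ext h3)
        exact Subgroup.card_dvd_of_injective f hf
      · intro H _ _ i Y' hi hY' hle hmu
        refine hIH H (X₁.subtype.comp i) Y' (X₁.subtype_injective.comp hi) hY' ?_
          (lt_of_lt_of_le hmu (mu_subgroupOf Y X₁ hYX₁))
        rw [← Subgroup.map_map]
        calc (Y'.map i).map X₁.subtype ≤ (Y.subgroupOf X₁).map X₁.subtype := Subgroup.map_mono hle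
          _ ≤ Y := by
            rw [Subgroup.map_subgroupOf_eq_of_le hYX₁]
      · let φ : X₀.subgroupOf X₁ →* X := X₁.subtype.comp (X₀.subgroupOf X₁).subtype
        have hφ : Function.Injective φ :=
          X₁.subtype_injective.comp (X₀.subgroupOf X₁).subtype_injective
        have h2 := H75.YY_transport ℓ φ hφ
          ((Y.subgroupOf X₁).subgroupOf (X₀.subgroupOf X₁)) e
        have h3 : ((Y.subgroupOf X₁).subgroupOf (X₀.subgroupOf X₁)).map φ = Y := by
          have h5 : Y.subgroupOf X₁ ≤ X₀.subgroupOf X₁ := Subgroup.comap_mono hYX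
          rw [← Subgroup.map_map, Subgroup.map_subgroupOf_eq_of_le h5,
            Subgroup.map_subgroupOf_eq_of_le hYX₁]
        have h4 : φ.range = X₀ := by
          rw [MonoidHom.range_comp, Subgroup.range_subtype, Subgroup.map_subgroupOf_eq_of_le h01]
        rw [h3, h4, ← H75.YY_subgroup ℓ X₀ Y hYX e, hYY] at h2
        exact h2
  intro X _ _ Y X₀ hY hX₀ hYX ⟨n, hn⟩ hC hIH e he hpos hdf hYY
  exact key n X Y X₀ hY hX₀ hYX hn hC hIH e he hpos hdf hYY

end Pool.Agent.DF
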