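import Pool.Agent.Helper66_DF.StmtsE
import Pool.Agent.Helper66_DF.LqnE
import Pool.Agent.Helper66_DF.FnlE
import Pool.Agent.Helper63_PP.Lqu
import Pool.Agent.Helper66_PP.Vst

/-!
# Squad DF, module LQUE: the end of the proof of S1 in the group `D`
-/

open scoped BigOperators

noncomputable section

namespace Pool.Agent.DF

open Pool.Agent.Helper51_AWC Pool.Agent.Helper79_WRA Pool.Agent.PP Pool.Agent.PP.H63

/-- normal subgroups of index prime to `ℓ` contain all `ℓ`-subgroups -/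
theorem DfE.of_prime_index {ℓ : ℕ} (hℓ : ℓ.Prime) {𝒟 : (Q : Type) → [Group Q] → Prop} {F H : Type}
    [Field F] [Group H] [Finite H] {e : H → F} {N : Subgroup H} [N.Normal] (hN : ¬ ℓ ∣ N.index)
    (h : DfE ℓ 𝒟 e N) : DfE ℓ 𝒟 e ⊤ := by
  intro Q _ hp hg
  exact h Q (H66.pgroup_le hℓ hp hN) hp hg

/-- LQU -/
theorem lquE (hOSI : OsiStmt) (hLQN : LqnEStmt) (hFNL : FnlEStmt) : LquEStmt := by
  classical
  intro ℓ hl 𝒟 h𝒟 F _ hF S _ _ hS D _ _ M hM hO hns hCM hZ hZM hmu hgood hY hyp f hf hfaith hpos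
    hdf
  obtain ⟨⟨m, hm⟩, hv⟩ := H96.lqv (S := S) hS hO hns hM hCM hZM hmu
  obtain ⟨D₀, hle, hD₀, hrel, n, hn⟩ := exists_D0 hM hm ℓ
  obtain ⟨h1, h2, hc, -, h5⟩ := hv D₀ hle hD₀ hrel
  have hs : ∀ t, t ∉ D₀ → f t = 0 := by
    intro t ht
    apply hOSI ℓ F hF D f hf t
    intro hreg
    exact ht (reg_mem_pow hD₀ hn hreg)
  have hf₀ : IsIdem (fun t : D₀ => f t) := H17.idem_sub hf hs
  have hpos₀ : Pos ℓ (fun t : D₀ => f t) (M.subgroupOf D₀) := H17.pos_sub hle hpos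
  have hdf₀ : DfE ℓ 𝒟 (fun t : D₀ => f t) (M.subgroupOf D₀) := hdf.sub h𝒟 (by
    rw [Subgroup.subgroupOf_map_subtype]
    exact inf_le_left)
  have hcardZ : Nat.card (Subgroup.center D₀) ∣ Nat.card (Subgroup.center D) := by
    rw [hc]
    exact Subgroup.card_comap_dvd_of_injective _ _ D₀.subtype_injective
  have hrel' : ¬ ℓ ∣ (M.subgroupOf D₀).index := hrel
  have hMn₀ : (M.subgroupOf D₀).Normal := hM.subgroupOf D₀
  have hmu₀ : mu (M.subgroupOf D₀) = mu M := mu_subgroupOf_eq hle hc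
  have hstep : YY ℓ (M.subgroupOf D₀) (fun t : D₀ => f t) = 0 := by
    refine hFNL ℓ 𝒟 h𝒟 F hF D₀ (M.subgroupOf D₀) (hM.subgroupOf D₀) ?_ ?_ ?_ ?_ ?_ _ hf₀ hpos₀
      hdf₀ ?_
    · apply le_antisymm
      · intro x hx
        rw [hc, Subgroup.mem_subgroupOf, ← hCM, Subgroup.mem_centralizer_iff]
        intro y hy
        exact congrArg Subtype.val
          (Subgroup.mem_centralizer_iff.1 hx ⟨y, hle hy⟩ hy)
      · exact Subgroup.center_le_centralizer _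
    · exact fun h => hZ (h.trans hcardZ)
    · rw [hc]
      intro x hx
      exact hZM hx
    · exact hgood.subgroupOf D₀ le_rfl
    · rw [hmu₀]
      exact hY
    · intro hp
      refine hyp D₀ D₀.subtype D₀.subtype_injective h1 h2 _ hf₀ (h5 F f hfaith) hp ?_
      exact DfE.of_prime_index hl.out hrel' hdf₀
  refine hLQN ℓ 𝒟 h𝒟 F hF D M D₀ hM hD₀ hle ⟨n, hn⟩ ?_ ?_ f hf hpos hdf hstep
  · rw [hCM]
    exact hZ
  · intro H _ _ i Y' hi hY' hYM hmu'
    refine hY H Y' hY' hmu' ?_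
    refine hgood.of_central i ?_ hYM
    rw [(MonoidHom.ker_eq_bot_iff i).2 hi]
    exact bot_le

end Pool.Agent.DF
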