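import Pool.Agent.Helper66_DF.StmtsE
import Pool.Agent.Helper59_PP.Lift

/-!
# Squad DF, module R2: from the doubling theorem and the components
-/

open scoped BigOperators

noncomputable section

namespace Pool.Agent.DF

open Pool.Agent.Helper51_AWC Pool.Agent.Helper79_WRA Pool.Agent.PP

/-- COVE for `DfE` -/
theorem DfE.cov (hcov : CovEStmt) {ℓ : ℕ} {𝒟 : (Q : Type) → [Group Q] → Prop} {F X : Type}
    [Field F] [Group X] [Finite X] (hF : GoodF ℓ F) {Y : Subgroup X} (hY : Y.Normal) {b e : X → F}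
    (hb : SBlk Y b) (he : IsIdem e) (he0 : e ≠ 0) (heb : mulF e b = e) (h : DfE ℓ 𝒟 e Y) :
    DfE ℓ 𝒟 b Y :=
  fun Q hQ hp hg => h Q hQ hp (hcov ℓ F hF X Y hY b hb e he he0 heb Q hQ hp hg)

/-- R2E -/
theorem rr2E (hps3 : Ps3Stmt) (hdbl : DblnEStmt) (hsum : SumStmt) (hcom : ComStmt)
    (hjii : JiiStmt) (hcmp : CmpEStmt) (hcov : CovEStmt) : R2EStmt := by
  intro ℓ hℓ 𝒟 h𝒟 F hFi hF G hG hfin N hCh hO hna hns hgood hY e he hpos hdf b hb hst heb
  have hN : N.Normal := hCh.1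
  have hdz : ¬ DZ ℓ b := fun h => he.2.1 ((hps3 ℓ F hF G N hN b hb hst e he.1 heb).2 h hpos)
  obtain ⟨τ, hτ⟩ := H59.exists_lift ℓ F hF
  have hcl : IsCl (ext0 N b) := by
    intro x y
    have hy : y ∈ stabF (ext0 N b) := by rw [hst]; exact Subgroup.mem_top y
    exact hy x
  have hS : SBlk N (ext0 N b) := by
    refine ⟨fun x hx => ?_, hcl, ?_⟩
    · unfold PP.ext0
      rw [dif_neg hx]
    · have : (fun t : N => ext0 N b t) = b := by
        funext t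
        unfold PP.ext0
        rw [dif_pos t.2]
      rw [this]
      exact hb
  obtain ⟨I, hI, hI', K, bK, act, hK⟩ := hcom ℓ F hF G N hCh hO hna hns b hb hst hdz
  have hdb : DfE ℓ 𝒟 (ext0 N b) N := DfE.cov hcov hF hN hS he.1 he.2.1 heb hdf
  refine hsum ℓ F hF τ hτ G N hN (ext0 N b) hS ?_ e he.1 heb
  refine hjii ℓ F hF G N b hS I K bK act hK ?_ τ hτ
  intro i τ' hτ'
  refine hdbl ℓ 𝒟 h𝒟 F hF τ' hτ' _ _ ?_ _ (hK.sblk i) (hK.pos i)
    (hcmp ℓ 𝒟 h𝒟 F hF G N b hS I K bK act hK hdb i) ?_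
  · infer_instance
  · rintro H₁ _ _ Q₁ hQ ⟨ε⟩ hmu _ ⟨j, hj⟩
    exact hY H₁ Q₁ hQ (lt_of_le_of_lt hmu (hK.mu i))
      ((hgood.subgroupOf _ (hK.le i)).of_prod j hj ε.toMonoidHom ε.injective)

end Pool.Agent.DF
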