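import Pool.Agent.Helper66_DF.StmtsE
import Pool.Agent.Helper94_PP.Rel

/-!
# Squad DF, module REL: the relative form
-/

open scoped BigOperators

noncomputable section

namespace Pool.Agent.DF

open Pool.Agent.Helper51_AWC Pool.Agent.Helper79_WRA Pool.Agent.PP
open Pool.Agent.Helper79_WRA.H91

/-- the relative form from the main theorem -/
theorem relE (hmain : MainEStmt) {ℓ : ℕ} [Fact ℓ.Prime] {𝒟 : (Q : Type) → [Group Q] → Prop}
    (h𝒟 : SubCl 𝒟) {F : Type} [Field F] (hF : GoodF ℓ F) {G : Type} [Group G] [Finite G]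
    {N : Subgroup G} (hN : N.Normal) (hg : GoodPE ℓ 𝒟 F N) {e : G → F} (he : IsIdem e)
    (hp : Pos ℓ e N) (hd : DfE ℓ 𝒟 e N) : YY ℓ ⊤ e = 0 := by
  rw [H96.rel_eq_top hF N hN e he, hmain ℓ 𝒟 h𝒟 F hF G N hN hg e he hp hd]
  intro c hc1 hc2 hc3 _
  have hcm := mem_chainsOn.1 hc1
  obtain ⟨t1, t2⟩ := H94.top_mem hcm.2.2 ⟨_, hcm.2.1⟩
  have htp : IsPGroup ℓ (top c) := (mem_psubIn.1 (hcm.1 t1)).2
  have hX1 := H96.centralizer_top_le t2
  have hX2 : stab c ≤ Subgroup.normalizer ((top c : Subgroup G) : Set G) := by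
    intro x hx
    exact (H94.mem_stab'.1 hx) _ t1
  have hidem : IsIdem (fun t : stab c => br (top c) e t) :=
    (H20.brm ℓ F hF G (top c) (stab c) htp hX1 hX2).2.2 e he
  have hcent : cent N c = Subgroup.centralizer ((top c : Subgroup G) : Set G) ⊓ N :=
    H46.cent_eq hc1 N
  have hposc : Pos ℓ (fun t : stab c => br (top c) e t) ((cent N c).subgroupOf (stab c)) := by
    rw [hcent]
    exact H66.ps1 ℓ F hF G (top c) N htp hN hc3 e he hp (stab c) hX1 hX2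
  have hnorm : ((cent N c).subgroupOf (stab c)).Normal := by
    constructor
    intro x hx g
    rw [Subgroup.mem_subgroupOf] at hx ⊢
    exact Pool.Agent.Helper79_WRA.H46.conj_mem_cent hN g.2 hx
  refine hmain ℓ 𝒟 h𝒟 F hF _ _ hnorm (hg.subgroupOf _ inf_le_left) _ hidem hposc
    (DfE.br h𝒟 (top c) hd ?_)
  rw [Subgroup.subgroupOf_map_subtype]
  exact inf_le_left.trans inf_le_left

/-- RELQE -/
theorem relQE (hmain : MainEStmt) (hv : VEStmt) (hstm : StmEStmt) : RelQEStmt := by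
  intro ℓ _ 𝒟 h𝒟 F _ hF G _ _ N hN hg e he hp hd
  exact relE hmain h𝒟 hF hN (hv ℓ 𝒟 h𝒟 F hF G N hN (hstm ℓ 𝒟 h𝒟 F hF G N hN hg)) he hp hd

end Pool.Agent.DF
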