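import Pool.Agent.Helper66_DF.StmtsE
import Pool.Agent.Helper66_DF.Lift
import Pool.Agent.Helper96_PP.Stm2

/-!
# Squad DF, module STME: reduction to stem groups
-/

open scoped BigOperators

set_option linter.unusedSectionVars false

noncomputable section

namespace Pool.Agent.DF

open Pool.Agent.Helper51_AWC Pool.Agent.Helper79_WRA Pool.Agent.PP Pool.Agent.PP.H18
open Pool.Agent.PP.H96

/-- STM -/
theorem stmE : StmEStmt := by
  intro ℓ hℓ 𝒟 h𝒟 F _ hF H _ _ N _ hQ S _ _ hS hdvd hI D _ _ hO hns hinv e he hcl hpos hdf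
  by_cases he0 : e = 0
  · rw [he0]
    exact H67.YY_zero hF ⊤
  have := hF.closed
  have := hF.char
  obtain ⟨a0, ha0⟩ : ∃ a, e a ≠ 0 := Function.ne_iff.1 he0
  -- the character `ζ`
  have hex : ∀ z : Subgroup.center D, ∃ c : F, ∀ x, e (z * x) = c * e x := by
    intro z
    by_cases hz : (z : D) = 1
    · exact ⟨1, fun x => by rw [hz, one_mul, one_mul]⟩
    · obtain ⟨c, -, hc⟩ := hcl z z.2 hz
      exact ⟨c, hc⟩
  choose c hc using hex
  have huniq : ∀ (z : Subgroup.center D) (w : F), (∀ x, e (z * x) = w * e x) → w = c z := by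
    intro z w hw
    exact mul_right_cancel₀ ha0 ((hw a0).symm.trans (hc z a0))
  have hc1 : c 1 = 1 := (huniq 1 1 (fun x => by rw [Subgroup.coe_one, one_mul, one_mul])).symm
  have hcm : ∀ z w, c (z * w) = c z * c w := fun z w =>
    (huniq (z * w) _ (fun x => by rw [Subgroup.coe_mul, mul_assoc, hc z, hc w, mul_assoc])).symm
  have hcu : ∀ z, c z ≠ 0 := by
    intro z hz
    have h1 := hcm z z⁻¹
    rw [mul_inv_cancel, hc1, hz, zero_mul] at h1
    exact one_ne_zero h1
  obtain ⟨ζ, hζ⟩ : ∃ ζ : Subgroup.center D →* Fˣ, ∀ (z : Subgroup.center D) (x : D),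
      e (z * x) = (ζ z : F) * e x :=
    ⟨{ toFun := fun z => Units.mk0 (c z) (hcu z)
       map_one' := Units.ext hc1
       map_mul' := fun z w => Units.ext (hcm z w) }, fun z x => hc z x⟩
  have hinj : Function.Injective ζ := by
    rw [injective_iff_map_eq_one]
    intro z hz
    by_contra hne
    obtain ⟨w, hw1, hw⟩ := hcl z z.2 (fun h => hne (Subtype.ext h))
    have h1 := huniq z w hw
    have h2 := huniq z (ζ z : F) (hζ z)
    rw [hz, Units.val_one] at h2
    exact hw1 (h1.trans h2.symm)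
  -- the extension of `ζ ^ n₀`
  obtain ⟨n₀, hn₀⟩ : ∃ n, n = Nat.card (Subgroup.center D ⊓ commutator D : Subgroup D) := ⟨_, rfl⟩
  have hn0 : 0 < n₀ := hn₀ ▸ Nat.card_pos
  have hpow : ∀ z : Subgroup.center D, (z : D) ∈ commutator D → ζ z ^ n₀ = 1 := by
    intro z hz
    have h1 : (⟨z, z.2, hz⟩ : (Subgroup.center D ⊓ commutator D : Subgroup D)) ^ n₀ = 1 := by
      rw [hn₀]
      exact pow_card_eq_one'
    have h1' : (z : D) ^ n₀ = 1 := congrArg Subtype.val h1
    have h2 : z ^ n₀ = 1 := Subtype.ext h1'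
    rw [← map_pow, h2, map_one]
  obtain ⟨lam, hlam⟩ := exists_lin (Subgroup.center D) ((powMonoidHom n₀).comp ζ) hpow
  have h : ∀ z, ζ z ^ n₀ = lam z := fun z => (hlam z).symm
  have hfin := hat_finite lam hn0
  have hZn : (zh h).range.Normal := zh_normal h
  have hs := p1_surj lam hn0
  obtain ⟨hcen, ⟨φ⟩⟩ := quot_equiv h hn0 hinj
  obtain ⟨q, hq⟩ : ∃ q, q = QuotientGroup.mk' (zh h).range := ⟨_, rfl⟩
  have hqs : Function.Surjective q := by rw [hq]; exact QuotientGroup.mk'_surjective _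
  have hqk : q.ker = (zh h).range := by rw [hq]; exact QuotientGroup.ker_mk' _
  -- the kernels have order prime to `ℓ`
  have hk1 : ¬ ℓ ∣ Nat.card (p1 lam n₀).ker := by
    apply not_dvd_of
    intro x hx hxl
    apply hat_ext
    · rw [map_one]
      exact hx
    · rw [map_one]
      apply units_pow hF
      rw [← map_pow, hxl, map_one]
  have hk2 : ¬ ℓ ∣ Nat.card q.ker := by
    apply not_dvd_of
    intro x hx hxl
    rw [hqk] at hx
    obtain ⟨z, rfl⟩ := hx
    have h1 : ζ z = 1 := by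
      apply units_pow hF
      rw [← chi_zh h z, ← map_pow, hxl, map_one]
    rw [← map_one ζ] at h1
    rw [hinj h1, map_one]
  -- the centre of `D₀`
  have hone : ∀ w : hat lam n₀ ⧸ (zh h).range, w ∈ Subgroup.center (hat lam n₀ ⧸ (zh h).range) →
      ∃ y : hat lam n₀, p1 lam n₀ y = 1 ∧ w = q y := by
    intro w hw
    obtain ⟨x, rfl⟩ := QuotientGroup.mk'_surjective (zh h).range w
    rw [hq]
    exact exists_one h ((hcen x).1 hw)
  have hcard : ¬ ℓ ∣ Nat.card (Subgroup.center (hat lam n₀ ⧸ (zh h).range)) := by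
    apply not_dvd_of
    intro w hw hwl
    obtain ⟨y, hy1, rfl⟩ := hone w hw
    have h1 : y ^ ℓ ∈ (zh h).range := by rw [← hqk, MonoidHom.mem_ker, map_pow, hwl]
    have h2 : y ^ ℓ = 1 := one_inj h (by rw [map_pow, hy1, one_pow]) h1
    have h3 : y = 1 := by
      apply hat_ext
      · rw [hy1, map_one]
      · rw [map_one]
        apply units_pow hF
        rw [← map_pow, h2, map_one]
    rw [h3, map_one]
  have hnsF : NearlySimpleF ℓ (hat lam n₀ ⧸ (zh h).range) S := nf_equiv φ hns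
  obtain ⟨T, t1, t2, t3, -⟩ := hnsF
  have hO' : opCore ℓ (hat lam n₀ ⧸ (zh h).range) = ⊥ := opCore_bot hS T ⟨hS, t1, t2, t3⟩ hcard
  -- the centre of `D₀` lies in the commutator subgroup
  have hstem : Subgroup.center (hat lam n₀ ⧸ (zh h).range) ≤
      commutator (hat lam n₀ ⧸ (zh h).range) := by
    intro w hw
    obtain ⟨y, hy1, rfl⟩ := hone w hw
    have hyr : (chi lam n₀ y)⁻¹ ^ n₀ = 1 := by
      rw [inv_pow, hat_rel, hy1, map_one, inv_one]
    -- a preimage under `ζ`
    obtain ⟨z, hz1, hz2⟩ : ∃ z : Subgroup.center D, (z : D) ∈ commutator D ∧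
        ζ z = (chi lam n₀ y)⁻¹ := by
      have : NeZero n₀ := ⟨hn0.ne'⟩
      let θ : (Subgroup.center D ⊓ commutator D : Subgroup D) → rootsOfUnity n₀ F := fun z =>
        ⟨ζ ⟨z, z.2.1⟩, by
          rw [mem_rootsOfUnity]
          exact hpow ⟨z, z.2.1⟩ z.2.2⟩
      have hθ : Function.Injective θ := by
        intro a b hab
        have h1 := congrArg Subtype.val hab
        have h2 := hinj h1
        rw [Subtype.mk.injEq] at h2
        exact Subtype.ext h2
      have hle : Nat.card (rootsOfUnity n₀ F) ≤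
          Nat.card (Subgroup.center D ⊓ commutator D : Subgroup D) := by
        rw [← hn₀]
        exact card_rootsOfUnity F n₀
      have hθb := (Function.Injective.bijective_of_nat_card_le hθ hle).2
      obtain ⟨z, hz⟩ := hθb ⟨(chi lam n₀ y)⁻¹, by rw [mem_rootsOfUnity]; exact hyr⟩
      exact ⟨⟨z, z.2.1⟩, z.2.2, congrArg Subtype.val hz⟩
    -- `(1, c) ζ̂(z) = (z, 1)` lies in the commutator subgroup
    have hmap : (commutator (hat lam n₀)).map (p1 lam n₀) = commutator D := by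
      rw [commutator_def, Subgroup.map_commutator, Subgroup.map_top_of_surjective _ hs,
        commutator_def]
    obtain ⟨v, hv, hv1⟩ : (z : D) ∈ (commutator (hat lam n₀)).map (p1 lam n₀) := by
      rw [hmap]
      exact hz1
    have hv2 : chi lam n₀ v = 1 := by
      have h1 : commutator (hat lam n₀) ≤ (chi lam n₀).ker :=
        Abelianization.commutator_subset_ker _
      exact h1 hv
    have h1 : v = y * zh h z := by
      apply hat_ext
      · rw [hv1, map_mul, hy1, one_mul, p1_zh]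
      · rw [hv2, map_mul, chi_zh, hz2, mul_inv_cancel]
    have h2 : q y = q v := by
      have h3 : q (zh h z) = 1 := by
        rw [← MonoidHom.mem_ker, hqk]
        exact ⟨_, rfl⟩
      rw [h1, map_mul, h3, mul_one]
    rw [h2]
    have h3 : (commutator (hat lam n₀)).map q = commutator (hat lam n₀ ⧸ (zh h).range) := by
      rw [commutator_def, Subgroup.map_commutator, Subgroup.map_top_of_surjective _ hqs,
        commutator_def]
    rw [← h3]
    exact ⟨v, hv, rfl⟩
  have hinv' : Involves H ((hat lam n₀ ⧸ (zh h).range) ⧸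
      Subgroup.center (hat lam n₀ ⧸ (zh h).range)) := hinv.trans_equiv φ
  -- the idempotents
  have hp1c : ∀ x, p1 lam n₀ x = 1 → x ∈ Subgroup.center (hat lam n₀) := by
    intro x hx
    apply central_of
    rw [hx]
    exact Subgroup.one_mem _
  have hqc : ∀ x, q x = 1 → x ∈ Subgroup.center (hat lam n₀) := by
    intro x hx
    rw [← MonoidHom.mem_ker, hqk] at hx
    exact zh_central h hx
  obtain ⟨i1, -, i2⟩ := H74.cen ℓ F hF (hat lam n₀) D (p1 lam n₀) hs hp1c hk1 e he
  have hcop1 : (Nat.card (p1 lam n₀).ker).Coprime ℓ :=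
    ((hF.prime.coprime_iff_not_dvd).2 hk1).symm
  have hcop2 : (Nat.card q.ker).Coprime ℓ := ((hF.prime.coprime_iff_not_dvd).2 hk2).symm
  have hne1 := H74.natCast_ne hF hcop1
  have hne2 := H74.natCast_ne hF hcop2
  obtain ⟨ê, hê⟩ : ∃ ê, ê = twl (chi lam n₀)⁻¹ (H74.infl (p1 lam n₀) e) := ⟨_, rfl⟩
  have hêv : ∀ x, ê x = (Nat.card (p1 lam n₀).ker : F)⁻¹ * e (p1 lam n₀ x) *
      (((chi lam n₀ x)⁻¹ : Fˣ) : F) := by
    intro x
    rw [hê]
    rfl
  have hinvar : ∀ z x, ê (zh h z * x) = ê x := by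
    intro z x
    rw [hêv, hêv, map_mul, map_mul, p1_zh, chi_zh, hζ, mul_inv, Units.val_mul,
      Units.val_inv_eq_inv_val, Units.val_inv_eq_inv_val]
    have h1 : (ζ z : F) ≠ 0 := (ζ z).ne_zero
    field_simp
  have hinvar' : ∀ x y, q x = q y → ê x = ê y := by
    intro x y hxy
    have h1 : x * y⁻¹ ∈ (zh h).range := by
      rw [← hqk, MonoidHom.mem_ker, map_mul, map_inv, hxy, mul_inv_cancel]
    obtain ⟨z, hz⟩ := h1
    have h2 : x = zh h z * y := by rw [hz, inv_mul_cancel_right]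
    rw [h2, hinvar]
  choose r hr using hqs
  obtain ⟨e₀, he₀⟩ : ∃ e₀ : hat lam n₀ ⧸ (zh h).range → F, e₀ = fun w =>
      (Nat.card q.ker : F) * ê (r w) := ⟨_, rfl⟩
  have he₀v : ∀ x, e₀ (q x) = (Nat.card q.ker : F) * ê x := by
    intro x
    rw [he₀]
    change (Nat.card q.ker : F) * ê (r (q x)) = _
    rw [hinvar' (r (q x)) x (hr _)]
  have hinfl : H74.infl q e₀ = ê := by
    funext x
    unfold H74.infl
    rw [he₀v, ← mul_assoc, inv_mul_cancel₀ hne2, one_mul]
  have hêi : IsIdem ê := by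
    rw [hê]
    exact twl_idem _ i1
  have hqs' : Function.Surjective q := fun w => ⟨r w, hr w⟩
  have he₀i : IsIdem e₀ := idem_of_infl hF q hqs' hcop2 (by rw [hinfl]; exact hêi)
  have hpos1 : Pos ℓ (H74.infl (p1 lam n₀) e) ⊤ := by
    have := (i2 ⊤ inferInstance).2 hpos
    rwa [Subgroup.comap_top] at this
  have hposê : Pos ℓ ê ⊤ := by
    rw [hê]
    exact twl_Pos _ _ hpos1
  have hpos0 : Pos ℓ e₀ ⊤ := by
    apply Pos_of_infl hF q hqs' hcop2
    rw [hinfl, Subgroup.comap_top]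
    exact hposê
  have hclause : ∀ w ∈ Subgroup.center (hat lam n₀ ⧸ (zh h).range), w ≠ 1 →
      ∃ c : F, c ≠ 1 ∧ ∀ x, e₀ (w * x) = c * e₀ x := by
    intro w hw hw1
    obtain ⟨y, hy1, rfl⟩ := hone w hw
    refine ⟨(((chi lam n₀ y)⁻¹ : Fˣ) : F), ?_, ?_⟩
    · intro hcon
      apply hw1
      have h1 : (chi lam n₀ y)⁻¹ = 1 := Units.ext hcon
      have h2 : y = 1 := by
        apply hat_ext
        · rw [hy1, map_one]
        · rw [map_one]
          exact inv_eq_one.1 h1
      rw [h2, map_one]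
    · intro x
      obtain ⟨x, rfl⟩ := hqs' x
      rw [← map_mul, he₀v, he₀v, hêv, hêv, map_mul, map_mul, hy1, one_mul, mul_inv,
        Units.val_mul]
      ring
  have hdf1 : DfE ℓ 𝒟 ê ⊤ := by
    refine DfE.pull h𝒟 hF.prime (p1 lam n₀) ⊤ le_top (not_dvd_inf hk1 _) (fun x hx => ?_) hdf
    intro h0
    apply hx
    rw [hêv, h0, mul_zero, zero_mul]
  have hdf0 : DfE ℓ 𝒟 e₀ ⊤ := by
    have h1 := DfE.push (e := e₀) h𝒟 hF.prime q ⊤ inferInstance (fun k hk m _ =>
      (Subgroup.mem_center_iff.1 (hqc k hk) m).symm) (not_dvd_inf hk2 _) (fun w hw => by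
        obtain ⟨x, rfl⟩ := hqs' w
        refine ⟨x, rfl, fun h0 => hw ?_⟩
        rw [he₀v, h0, mul_zero]) hdf1
    rwa [Subgroup.map_top_of_surjective q hqs'] at h1
  have hzero := hQ S hS hdvd hI (hat lam n₀ ⧸ (zh h).range) hO' (nf_equiv φ hns) hinv' hstem e₀
    he₀i hclause hpos0 hdf0
  -- the sums
  obtain ⟨-, -, i3⟩ := H74.cen ℓ F hF (hat lam n₀) _ q hqs' hqc hk2 e₀ he₀i
  have j1 : YY ℓ ⊤ ê = 0 := by
    have h1 := (i3 ⊤ inferInstance).1
    rw [hzero, mul_zero, Subgroup.comap_top] at h1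
    rw [← hinfl]
    exact h1
  have j2 : YY ℓ ⊤ (H74.infl (p1 lam n₀) e) = 0 := by
    rw [hê, twl_YY] at j1
    exact j1
  have j3 := (i2 ⊤ inferInstance).1
  rw [Subgroup.comap_top] at j3
  have j4 : (Nat.card (p1 lam n₀).ker : ℤ) * YY ℓ ⊤ e = 0 := j3.symm.trans j2
  rcases mul_eq_zero.1 j4 with h1 | h1
  · exact absurd h1 (by exact_mod_cast (Nat.card_pos (α := (p1 lam n₀).ker)).ne')
  · exact h1

end Pool.Agent.DF
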