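import Pool.Agent.Helper66_DF.StmtsE
import Pool.Agent.Helper46_PP.Top

/-!
# Squad DF, module TOP: the master induction with control of the defect groups
-/

open scoped BigOperators

noncomputable section

namespace Pool.Agent.DF

open Pool.Agent.Helper51_AWC Pool.Agent.Helper79_WRA Pool.Agent.PP
open Pool.Agent.PP.H46 (pos_mono mulF_comm exists_blk mul_stable pos_card pos_dzb card_cent
  prC_of_DZ top_mem cent_eq ext0_restr)

theorem topE (hFr : FrStmt) (hDz : DzEStmt) (hRcn : RcnStmt) (hTrn : TrnStmt)
    (hYzr : YzrStmt) (hPs1 : Ps1Stmt) (hPs3 : Ps3Stmt) (hGr1 : Gr1Stmt) (hGr2 : Gr2Stmt)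
    (hMus : MusStmt) (hAdd : AddStmt) (hBrm : BrmStmt) (hS1 : S1EStmt) (hR2 : R2EStmt) :
    MainEStmt := by
  intro ℓ _ 𝒟 h𝒟 F _ hF
  classical
  -- strong induction on `mu N`
  have key : ∀ m : ℕ, ∀ (H : Type) [Group H] [Finite H] (N : Subgroup H), N.Normal → mu N = m →
      GoodPE ℓ 𝒟 F N → YHE ℓ 𝒟 F N := by
    intro m
    induction m using Nat.strong_induction_on with
    | _ m ihm =>
    have hlt : YltE ℓ 𝒟 F m := fun H _ _ N hN hm hg => ihm (mu N) hm H N hN rfl hg
    intro H gH fH N hN hm hg
    -- strong induction on `|H|`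
    induction hn : Nat.card H using Nat.strong_induction_on generalizing H with
    | _ n ihn =>
    have hltN : YltE ℓ 𝒟 F (mu N) := by rw [hm]; exact hlt
    intro e0 he0 hp0 hd0
    apply hAdd ℓ F hF H N hN e0 he0
    intro e he hee
    have hdf : DfE ℓ 𝒟 e N := DfE.le hF he0.1 he.1.1 hee hd0
    have hp : Pos ℓ e N := pos_mono he.1 (by rw [mulF_comm he.1.1, hee]) hp0
    have hez : e ≠ 0 := he.2.1
    -- normal `ℓ`-subgroups
    by_cases hO : opCore ℓ N ≠ ⊥
    · exact hYzr ℓ F hF.prime H N hN hO e
    rw [not_not] at hO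
    -- the abelian case
    by_cases hab : ∀ x ∈ N, ∀ y ∈ N, x * y * x⁻¹ * y⁻¹ ∈ Subgroup.center H
    · exact absurd (pos_card hp (hGr1 ℓ H N hN hO hab)) hez
    have hNc : ¬ N ≤ Subgroup.center H := by
      intro h
      apply hab
      intro x hx y hy
      have := Subgroup.mem_center_iff.1 (h hx) y
      have h2 : x * y * x⁻¹ * y⁻¹ = 1 := by rw [← this]; group
      rw [h2]
      exact Subgroup.one_mem _
    obtain ⟨N2, hN2N, hZN2, hCh⟩ := hGr2 H N hN hNc
    have hN2 : N2.Normal := hCh.1
    have hN2c : ¬ N2 ≤ Subgroup.center H := hCh.2.1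
    obtain ⟨mus1, mus2, mus3, mus4⟩ := hMus H N N2 hN hN2 hN2N hZN2 hN2c
    obtain ⟨b, hb0, hb, hbe⟩ := exists_blk hez N2
    -- Fong-Reynolds
    by_cases hT : stabF b = ⊤
    swap
    · have hZT : Subgroup.center H ≤ stabF b := by
        intro g hgz x
        have h1 : g * x * g⁻¹ = x := by
          have := Subgroup.mem_center_iff.1 hgz x
          rw [← this]
          group
        rw [h1]
      obtain ⟨-, h2, h3, h4⟩ := hFr ℓ F hF H N2 N hN2 hN hN2N e he hp b hb0 hb hbe (stabF b)
        (fun g => Iff.rfl)
      rw [h4]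
      have hnorm : (N.subgroupOf (stabF b)).Normal := hN.subgroupOf _
      have hmu := mus3 (stabF b) hZT
      have hgood : GoodPE ℓ 𝒟 F (N.subgroupOf (stabF b)) := hg.subgroupOf (stabF b) le_rfl
      have h5 : YHE ℓ 𝒟 F (N.subgroupOf (stabF b)) := by
        rcases lt_or_eq_of_le hmu with h | h
        · exact hltN _ _ hnorm h hgood
        · refine ihn (Nat.card (stabF b)) ?_ (stabF b) (N.subgroupOf (stabF b)) hnorm
            (by rw [h, hm]) hgood rfl
          rw [← hn]
          have h6 := Subgroup.card_le_card_group (stabF b)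
          exact lt_of_le_of_ne h6 fun h7 => hT (Subgroup.eq_top_of_card_eq _ h7)
      have hdT : DfE ℓ 𝒟 (fun t : stabF b => mulF e b t) (N.subgroupOf (stabF b)) := by
        refine DfE.sub h𝒟 (N := N ⊓ stabF b) (DfE.factor hF (fun n _ t => he.1.1 t n) ?_
          (hdf.mono inf_le_left)) ?_
        · intro n hn t
          exact hn.2 t
        · rw [Subgroup.subgroupOf_map_subtype]
      rw [h5 _ h2 h3 hdT, mul_zero]
    -- the stable case
    have hbc : IsCl b := by
      intro x y
      have : y ∈ stabF b := by rw [hT]; exact Subgroup.mem_top y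
      exact this x
    have hebe : mulF e b = e := mul_stable hb0 hb hbc he hbe
    by_cases hd : PrC ℓ (fun t : N2 => b t)
    · by_cases h2 : N2 = N
      · exfalso
        apply hez
        subst h2
        refine pos_dzb he.1 hp hebe hb0 (fun q _ x => hbc x q) ?_
        intro x hx hdiv
        have := hd.2 ⟨x, hx⟩ (by rw [card_cent]; exact hdiv)
        exact this
      · obtain ⟨D, _, _, W, M', φ, ψ, f, p1, p2, d1, d2, d3, d4, d5, d6, d7, d8, d9, dd, d10⟩ :=
          hDz ℓ F hF H N2 N b e ⟨hN2, hbc, hb0, hb, hd⟩ hN hN2N he.1 hebe hp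
        have hmu : mu M' < mu N := by
          have h3 : mu M' ≤ W.relIndex M' := by
            unfold mu
            apply Nat.le_of_dvd
            · apply Nat.pos_of_ne_zero
              exact Subgroup.index_ne_zero_of_finite
            · exact Subgroup.relIndex_dvd_of_le_left M' d1
          rw [d7] at h3
          exact lt_of_le_of_lt h3 (mus2 h2)
        have hgood : GoodPE ℓ 𝒟 F M' := by
          refine hg.trans (fun S _ hS hI => ?_) (fun A S _ _ T hT hI => ?_)
          swap
          · have h3 : Involves (H ⧸ N2) A :=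
              hT.involves_central ψ (by rw [p2]; exact d1) hI
            exact h3.of_surjective (QuotientGroup.mk' N2) (QuotientGroup.mk'_surjective _)
          have h4 : Involves (N ⧸ N2.subgroupOf N) S := by
            refine hI.of_central hS φ ?_
            rw [d6]
            intro x hx
            rw [Subgroup.mem_center_iff]
            intro y
            have hx' : (x : D) ∈ Subgroup.center D := d1 hx
            exact Subtype.ext (Subgroup.mem_center_iff.1 hx' y)
          exact h4.of_surjective (QuotientGroup.mk' (N2.subgroupOf N))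
            (QuotientGroup.mk'_surjective _)
        have h5 := hltN D M' d3 hmu hgood f d8 d9 (dd 𝒟 h𝒟 hdf)
        rw [h5, mul_zero] at d10
        rcases mul_eq_zero.1 d10 with h6 | h6
        · exfalso
          have : Nat.card W ≠ 0 := Nat.card_pos.ne'
          exact this (by exact_mod_cast h6)
        · exact h6
    -- positive over `N2`
    have hpos2 : Pos ℓ e N2 := by
      refine (hPs3 ℓ F hF H N2 hN2 (fun t : N2 => b t) hb ?_ e he.1 ?_).1 ?_
      · rw [ext0_restr hb0]; exact hT
      · rw [ext0_restr hb0]; exact hebe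
      · intro h
        exact hd (prC_of_DZ h hb.1.1)
    by_cases h2 : N2 = N
    · subst h2
      by_cases hs : IsSimpleGroup (N2 ⧸ (Subgroup.center H).subgroupOf N2)
      · refine hS1 ℓ 𝒟 h𝒟 F hF H N2 hN hO ⟨hs, ?_⟩ hg hltN e he.1 hp hdf
        push Not at hab
        obtain ⟨x, hx, y, hy, hxy⟩ := hab
        refine ⟨QuotientGroup.mk ⟨x, hx⟩, QuotientGroup.mk ⟨y, hy⟩, ?_⟩
        intro h
        apply hxy
        have h3 : (QuotientGroup.mk ((⟨x, hx⟩ : N2) * ⟨y, hy⟩ * (⟨x, hx⟩ : N2)⁻¹ *
            (⟨y, hy⟩ : N2)⁻¹) : N2 ⧸ (Subgroup.center H).subgroupOf N2) = 1 := by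
          rw [QuotientGroup.mk_mul, QuotientGroup.mk_mul, QuotientGroup.mk_mul, h,
            QuotientGroup.mk_inv, QuotientGroup.mk_inv]
          group
        exact Subgroup.mem_subgroupOf.1 ((QuotientGroup.eq_one_iff
          (N := (Subgroup.center H).subgroupOf N2) _).1 h3)
      · refine hR2 ℓ 𝒟 h𝒟 F hF H N2 hCh hO ?_ hs hg hltN e he hp hdf (fun t : N2 => b t) hb ?_ ?_
        · push Not at hab
          exact hab
        · rw [ext0_restr hb0]; exact hT
        · rw [ext0_restr hb0]; exact hebe
    · -- relative chain reduction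
      have h3 := hRcn ℓ H N N2 hN hN2 hN2N
        (fun X => (Nat.card X : ℤ) * (lnum X e : ℤ))
      have h4 : YY ℓ N e = ∑ d ∈ chainsOn (psubIn ℓ N) ⊥, (-1) ^ (d.card + 1) *
          (fun X : Subgroup H => (Nat.card X : ℤ) * (lnum X e : ℤ)) (stab d) := rfl
      rw [h4, h3]
      refine Finset.sum_eq_zero fun c hc => ?_
      rw [Finset.mem_filter] at hc
      obtain ⟨hc1, hc2, hc3⟩ := hc
      have hcm := mem_chainsOn.1 hc1
      have hctop : c ∈ chainsOn (psubIn ℓ (⊤ : Subgroup H)) ⊥ := by
        rw [mem_chainsOn]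
        refine ⟨fun D hD => ?_, hcm.2⟩
        rw [mem_psubIn]
        exact ⟨le_top, (mem_psubIn.1 (hcm.1 hD)).2⟩
      rw [hTrn ℓ F hF H N2 hN2 e he.1 c hctop hc2]
      obtain ⟨t1, t2⟩ := top_mem hc1
      have htp : IsPGroup ℓ (top c) := (mem_psubIn.1 (hcm.1 t1)).2
      have hX1 : Subgroup.centralizer ((top c : Subgroup H) : Set H) ≤ stab c := by
        intro g hgc
        rw [mem_stab]
        intro D hD
        have h5 : g ∈ Subgroup.centralizer ((D : Subgroup H) : Set H) :=
          Subgroup.centralizer_le (t2 D hD) hgc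
        rw [← mem_normalizer_iff_conjS]
        · rw [Subgroup.mem_normalizer_iff]
          intro x
          constructor
          · intro hx
            have := Subgroup.mem_centralizer_iff.1 h5 x hx
            rw [← this, mul_inv_cancel_right]
            exact hx
          · intro hx
            have := Subgroup.mem_centralizer_iff.1 h5 _ hx
            have h7 : x = g * x * g⁻¹ := by
              have h8 : g * x * g⁻¹ * g = g * (g * x * g⁻¹) := this
              rw [inv_mul_cancel_right] at h8
              exact mul_left_cancel h8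
            rw [h7]
            exact hx
      have hX2 : stab c ≤ Subgroup.normalizer ((top c : Subgroup H) : Set H) := by
        unfold stab
        exact iInf₂_le (top c) t1
      have hidem : IsIdem (fun t : stab c => br (top c) e t) :=
        (hBrm ℓ F hF H (top c) (stab c) htp hX1 hX2).2.2 e he.1
      have hposc : Pos ℓ (fun t : stab c => br (top c) e t)
          ((cent N2 c).subgroupOf (stab c)) := by
        rw [cent_eq hc1]
        exact hPs1 ℓ F hF H (top c) N2 htp hN2 (hc3 _ t1) e he.1 hpos2 (stab c) hX1 hX2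
      have hnorm : ((cent N2 c).subgroupOf (stab c)).Normal := by
        constructor
        intro x hx g
        rw [Subgroup.mem_subgroupOf] at hx ⊢
        exact Pool.Agent.Helper79_WRA.H46.conj_mem_cent hN2 g.2 hx
      have hcle : cent N2 c ≤ N2 := inf_le_left
      have hZX : Subgroup.center H ≤ stab c :=
        (Subgroup.center_le_centralizer _).trans hX1
      have hmu : mu ((cent N2 c).subgroupOf (stab c)) < mu N :=
        lt_of_le_of_lt (mus4 (stab c) (cent N2 c) hZX hcle) (mus1 h2)
      have h7 := hltN _ _ hnorm hmu (hg.subgroupOf (stab c) (hcle.trans hN2N)) _ hidem hposc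
        (DfE.br h𝒟 (top c) hdf (by
          rw [Subgroup.subgroupOf_map_subtype]
          exact inf_le_left.trans (hcle.trans hN2N)))
      rw [h7, mul_zero]
  intro H _ _ N hN hg
  exact key (mu N) H N hN rfl hg

end Pool.Agent.DF
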