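import Pool.Agent.Helper66_DF.StmtsE2
import Pool.Agent.Helper66_DF.LqE
import Pool.Agent.Helper66_DF.LqnE
import Pool.Agent.Helper66_DF.FnlE
import Pool.Agent.Helper66_DF.LquE
import Pool.Agent.Helper66_DF.S1nE
import Pool.Agent.Helper66_DF.StmE
import Pool.Agent.Helper66_DF.DzE
import Pool.Agent.Helper66_DF.R2E
import Pool.Agent.Helper66_DF.TopE
import Pool.Agent.Helper66_DF.RelE
import Pool.Agent.Helper86_DF.S1gE
import Pool.Agent.Helper76_DF.VstE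
import Pool.Agent.Helper29_DF.Cmp
import Pool.Agent.Helper96_PP.Asm

/-!
# Squad DF: assembly of the reduction with control of the defect groups
-/

open scoped BigOperators

set_option linter.unusedSectionVars false

noncomputable section

namespace Pool.Agent.DF

open Pool.Agent.Helper51_AWC Pool.Agent.Helper79_WRA Pool.Agent.PP

section asm

theorem cmp_ : CmpStmt := H6.cmp H20.matS H74.orb

theorem dzE_ (hdfq : DfqStmt) : DzEStmt :=
  dzE hdfq cmp_ (H74.covStmt H20.ibc) H74.cen H20.matS H94.nch (H65.sup H20.nls)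
    H96.nco_ (H59.dzq H96.cl_ (Pool.Agent.Helper58_CL.clu H20.ibc) H96.eps_ H20.blk H20.matS
      H96.nco_ H20.nls H20.brm H20.eig H20.ibc) H21.psf

theorem lqE_ : LqEStmt :=
  lqE H96.rkr_ H96.lqr_ H66.ps1 H20.brm Pool.Agent.Helper26_PP.cux H96.osi_

theorem lqnE_ : LqnEStmt := lqnE H96.osi_ lqE_

theorem s1nE_ : S1nEStmt := s1nE H19.cvr H91R.pow_ H19.lma (lquE H96.osi_ lqnE_ fnlE)

theorem s1E_ (hcov : CovEStmt) (hdbl : DblnEStmt) : S1EStmt :=
  H86.s1gE s1nE_ hdbl hcov H9.addStmt H96.fr_ Pool.Agent.AWR.H39.ps3 H96.sum_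

theorem r2E_ (hcov : CovEStmt) (hdbl : DblnEStmt) : R2EStmt :=
  rr2E Pool.Agent.AWR.H39.ps3 hdbl H96.sum_ H96.com_ H96.jii_ (H29.cmpE H20.ibn H20.eig) hcov

theorem mainE_ (hdfq : DfqStmt) (hcov : CovEStmt) (hdbl : DblnEStmt) : MainEStmt :=
  topE H96.fr_ (dzE_ hdfq) H96.rcn (H96.trn H20.nls) H96.yzr H66.ps1 Pool.Agent.AWR.H39.ps3
    Pool.Agent.AWR.H39.gr1 Pool.Agent.AWR.H39.gr2 Pool.Agent.AWR.H39.mus H9.addStmt H20.brm
    (s1E_ hcov hdbl) (r2E_ hcov hdbl)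

theorem vE_ (hdfq : DfqStmt) (hcov : CovEStmt) (hdbl : DblnEStmt) : VEStmt :=
  H76.vstE (mainE_ hdfq hcov hdbl) H9.addStmt H96.fr_ Pool.Agent.AWR.H39.ps5 H96.sum_ hdbl hcov
    H20.rst

theorem relQE_ (hdfq : DfqStmt) (hcov : CovEStmt) (hdbl : DblnEStmt) : RelQEStmt :=
  relQE (mainE_ hdfq hcov hdbl) (vE_ hdfq hcov hdbl) stmE

end asm

end Pool.Agent.DF
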