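import Pool.Agent.Helper66_DF.StmtsE2
import Pool.Agent.Helper18_PP.Bet
import Pool.Agent.Helper20_PP.MatS

/-!
# Squad DF, module DFQ: the quotient by a normal subgroup with a block of defect zero
-/

open scoped BigOperators

set_option linter.unusedSectionVars false

noncomputable section

namespace Pool.Agent.DF

open Pool.Agent.Helper51_AWC Pool.Agent.Helper79_WRA Pool.Agent.PP

section dfq

variable {F G : Type} [Field F] [Group G] [Finite G] {N : Subgroup G} [N.Normal] {n : ℕ}

/-- the value at a conjugated element -/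
theorem ev_conjN (α : G →* Matrix (Fin n) (Fin n) F) (a : N → F) (p : G) :
    ev (α.comp N.subtype) (fun x => a (MulAut.conjNormal p⁻¹ x)) =
      α p * ev (α.comp N.subtype) a * α p⁻¹ := by
  have := Fintype.ofFinite N
  unfold ev
  rw [finsum_eq_sum_of_fintype, finsum_eq_sum_of_fintype, Finset.mul_sum, Finset.sum_mul,
    ← Equiv.sum_comp (MulAut.conjNormal p⁻¹ : MulAut N).toEquiv
      (fun t : N => α p * (a t • (α.comp N.subtype) t) * α p⁻¹)]
  refine Finset.sum_congr rfl fun t _ => ?_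
  have e1 : ((MulAut.conjNormal p⁻¹ : MulAut N).toEquiv t : N) = MulAut.conjNormal p⁻¹ t := rfl
  have e2 : (α.comp N.subtype) (MulAut.conjNormal p⁻¹ t) = α p⁻¹ * α t * α p := by
    rw [MonoidHom.comp_apply, Subgroup.coe_subtype, MulAut.conjNormal_apply, inv_inv, map_mul,
      map_mul]
  have e3 : α p * α p⁻¹ = 1 := by rw [← map_mul, mul_inv_cancel, map_one]
  rw [e1, mul_smul_comm, smul_mul_assoc, e2]
  congr 1
  calc (α.comp N.subtype) t = 1 * α t * 1 := by rw [one_mul, mul_one]; rfl
    _ = (α p * α p⁻¹) * α t * (α p * α p⁻¹) := by rw [e3]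
    _ = _ := by simp only [mul_assoc]

/-- the statement DFQ -/
theorem dfq (hm : MatStmt) : DfqStmt := by
  classical
  intro ℓ F _ hF G _ _ N _ b e n α hNB hρ hρb he heb f hf P hP ⟨x, hx, hfx⟩
  have : Fact ℓ.Prime := ⟨hF.prime⟩
  have := hF.char
  have := Fintype.ofFinite N
  obtain ⟨hPp, -, h₀, hh₀N, hh₀C, hbh₀⟩ := hP
  by_contra hcon
  push Not at hcon
  obtain ⟨-, hbcl, -, hDZ⟩ := hNB
  have hker : ∀ a a' : N → F, ev (α.comp N.subtype) a = ev (α.comp N.subtype) a' →
      mulF a (fun x : N => b x) = mulF a' (fun x : N => b x) := by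
    intro a a' h
    have h1 := (hm ℓ F hF N (fun x : N => b x) hDZ).2.1 n (α.comp N.subtype) hρ hρb (a - a')
      (by rw [H18.ev_sub, h, sub_self])
    have h2 : ma (mulF (a - a') (fun x : N => b x)) = ma (0 : N → F) := by rw [h1]
    rw [ma_mul, ma_sub, sub_mul, ma_zero, ← ma_mul, ← ma_mul, sub_eq_zero] at h2
    exact ma_injective h2
  have hker0 : ∀ a : N → F, ev (α.comp N.subtype) a = 0 → mulF a (fun x : N => b x) = 0 :=
    (hm ℓ F hF N (fun x : N => b x) hDZ).2.1 n (α.comp N.subtype) hρ hρb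
  obtain ⟨g, rfl⟩ := QuotientGroup.mk'_surjective N x
  choose c hc using fun y : G => H18.ev_surj hρ (e y • α y)
  have hbφ : ∀ (p : G) (h : N), b (MulAut.conjNormal p⁻¹ h : N) = b h := by
    intro p h
    rw [MulAut.conjNormal_apply]
    exact hbcl _ _
  -- equivariance
  have hconj : ∀ (p y : G) (h : N), mulF (c (p * y * p⁻¹)) (fun x : N => b x) h =
      mulF (c y) (fun x : N => b x) (MulAut.conjNormal p⁻¹ h) := by
    intro p y h
    have h1 : ev (α.comp N.subtype) (c (p * y * p⁻¹)) =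
        ev (α.comp N.subtype) (fun x => c y (MulAut.conjNormal p⁻¹ x)) := by
      rw [ev_conjN, hc, hc, he.1, mul_smul_comm, smul_mul_assoc, map_mul, map_mul]
    rw [hker _ _ h1]
    have h2 := H18.mulF_aut (c y) (fun x : N => b x) (MulAut.conjNormal p⁻¹ : MulAut N)
    have h3 : (fun x : N => b (MulAut.conjNormal p⁻¹ x : N)) = fun x : N => b x :=
      funext fun x => hbφ p x
    rw [h3] at h2
    rw [h2]
  -- the total sum
  have htot : ∑ k : N, mulF (c (g * k)) (fun x : N => b x) =
      f (g : G ⧸ N) • fun x : N => b x := by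
    have h1 : ev (α.comp N.subtype) (∑ k : N, c (g * k)) =
        ev (α.comp N.subtype) (f (g : G ⧸ N) • fun x : N => b x) := by
      rw [ev_smul, hρb, ev_eq, ma_sum, map_sum]
      have h2 := hf g
      rw [finsum_eq_sum_of_fintype] at h2
      rw [Matrix.smul_one_eq_diagonal, ← Matrix.scalar_apply]
      rw [← h2]
      refine Finset.sum_congr rfl fun k _ => ?_
      rw [← ev_eq, hc]
    have h2 := hker _ _ h1
    have h3 : mulF (f (g : G ⧸ N) • fun x : N => b x) (fun x : N => b x) =
        f (g : G ⧸ N) • fun x : N => b x := by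
      apply ma_injective
      rw [ma_mul, ma_smul, smul_mul_assoc, ← ma_mul, hDZ.1.1.2]
    rw [h3] at h2
    rw [← h2]
    apply ma_injective
    rw [ma_sum, ma_mul, ma_sum, Finset.sum_mul]
    exact Finset.sum_congr rfl fun k _ => ma_mul _ _
  -- the action of `P`
  have hmem : ∀ (p : P) (k : N), g⁻¹ * (p * (g * k) * (p : G)⁻¹) ∈ N := by
    intro p k
    have h1 : (QuotientGroup.mk' N) (p : G) * (QuotientGroup.mk' N) g =
        (QuotientGroup.mk' N) g * (QuotientGroup.mk' N) (p : G) :=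
      Subgroup.mem_centralizer_iff.1 hx _ ⟨p, p.2, rfl⟩
    have h2 : (QuotientGroup.mk' N) (g⁻¹ * (p * (g * k) * (p : G)⁻¹)) = 1 := by
      have h3 : (QuotientGroup.mk' N) (k : G) = 1 := (QuotientGroup.eq_one_iff _).2 k.2
      rw [map_mul, map_mul, map_mul, map_mul, h3, mul_one, h1, map_inv, map_inv]
      group
    exact (QuotientGroup.eq_one_iff _).1 h2
  let _ : MulAction P N :=
    { smul := fun p k => ⟨g⁻¹ * (p * (g * k) * (p : G)⁻¹), hmem p k⟩
      one_smul := fun k => Subtype.ext (by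
        change g⁻¹ * (((1 : P) : G) * (g * k) * ((1 : P) : G)⁻¹) = k
        rw [Subgroup.coe_one]
        group)
      mul_smul := fun p q k => Subtype.ext (by
        change g⁻¹ * (((p * q : P) : G) * (g * k) * ((p * q : P) : G)⁻¹) =
          g⁻¹ * (p * (g * (g⁻¹ * (q * (g * k) * (q : G)⁻¹))) * (p : G)⁻¹)
        rw [Subgroup.coe_mul]
        group) }
  have hsm : ∀ (p : P) (k : N), (g * (p • k : N) : G) = p * (g * k) * (p : G)⁻¹ := by
    intro p k
    change g * (g⁻¹ * (p * (g * k) * (p : G)⁻¹)) = _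
    group
  have hV : ∀ v : F, ℓ • v = 0 := fun v => by rw [nsmul_eq_mul, CharP.cast_eq_zero, zero_mul]
  have h1 := H74.orbit_sum (R := P) hPp hV
    (fun k : N => mulF (c (g * k)) (fun x : N => b x) ⟨h₀, hh₀N⟩) (by
      intro p k
      rw [hsm, hconj]
      congr 1
      apply Subtype.ext
      rw [MulAut.conjNormal_apply]
      have h2 := Subgroup.mem_centralizer_iff.1 hh₀C p p.2
      change (p : G)⁻¹ * h₀ * (p : G)⁻¹⁻¹ = h₀
      rw [inv_inv, mul_assoc, ← h2]
      group)
  have h2 : ∑ k : N, mulF (c (g * k)) (fun x : N => b x) ⟨h₀, hh₀N⟩ = f (g : G ⧸ N) * b h₀ := by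
    have h3 := congrFun htot ⟨h₀, hh₀N⟩
    rw [Finset.sum_apply] at h3
    exact h3
  rw [h2, Finset.sum_eq_zero] at h1
  · rcases mul_eq_zero.1 h1 with h4 | h4
    · exact hfx h4
    · exact hbh₀ h4
  · intro k hk
    have hk1 := (Finset.mem_filter.1 hk).2
    have h3 : e (g * k) = 0 := by
      refine hcon _ (Subgroup.mem_centralizer_iff.2 fun p hp => ?_)
      have h4 := hsm ⟨p, hp⟩ k
      rw [hk1 ⟨p, hp⟩] at h4
      rw [h4]
      change p * (p * (g * k) * p⁻¹) = p * (g * k) * p⁻¹ * p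
      rw [inv_mul_cancel_right, ← h4]
    have h4 := hker0 (c (g * k)) (by rw [hc, h3, zero_smul])
    rw [h4]
    rfl

end dfq

theorem dfq_ : DfqStmt := dfq H20.matS

end Pool.Agent.DF
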