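import Pool.Agent.Helper66_DF.AsmDF

/-!
# Squad DF: the final theorem with control of the defect groups, in terms of ordinary characters
-/

open scoped BigOperators

set_option linter.unusedSectionVars false

noncomputable section

namespace Pool.Agent.DF

open Pool.Agent.Helper51_AWC Pool.Agent.Helper79_WRA Pool.Agent.PP

/-- The conjecture holds at `ℓ` for the blocks of positive defect with defect groups in `𝒟`,
faithful on the centre, of all the groups `D` of `GoodC2`. -/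
def GoodC3 (ℓ : ℕ) (M : Ideal (integralClosure ℤ ℂ)) (𝒟 : (Q : Type) → [Group Q] → Prop) {G : Type}
    [Group G] (N : Subgroup G) : Prop :=
  ∀ (S : Type) [Group S] [Finite S], NonabSimple S → ℓ ∣ Nat.card S → Involves N S →
    ∀ (D : Type) [Group D] [Finite D], opCore ℓ D = ⊥ → Subgroup.center D ≤ commutator D →
      NearlySimpleF ℓ D S → Involves G (D ⧸ Subgroup.center D) →
      ∀ χ ∈ Irr D, (∀ z ∈ Subgroup.center D, χ z = χ 1 → z = 1) → LargeDefect ℓ M χ →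
        DfIn ℓ M 𝒟 χ → altSum ℓ M χ = 0

/-- The final theorem with control of the defect groups. -/
def FinEStmt : Prop := ∀ (ℓ : ℕ), ℓ.Prime → ∀ (M : Ideal (integralClosure ℤ ℂ)) [M.IsMaximal],
  (ℓ : integralClosure ℤ ℂ) ∈ M → ∀ 𝒟 : (Q : Type) → [Group Q] → Prop, SubCl 𝒟 →
  ∀ (G : Type) [Group G] [Finite G],
  opCore ℓ G ≤ Subgroup.center G → ∀ N : Subgroup G, N.Normal → GoodC3 ℓ M 𝒟 N →
  ∀ χ ∈ Irr G, ∀ ψ ∈ Irr N, (∑ᶠ n : N, χ n * starRingEnd ℂ (ψ n)) ≠ 0 → LargeDefect ℓ M ψ →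
    DfIn ℓ M 𝒟 ψ → altSum ℓ M χ = 0

/-- The same with the hypothesis on idempotents. -/
theorem finI (relq : RelQEStmt) (fst : FstStmt) {ℓ : ℕ} (hℓ : ℓ.Prime)
    {M : Ideal (integralClosure ℤ ℂ)} [M.IsMaximal] (hM : (ℓ : integralClosure ℤ ℂ) ∈ M) :
    letI := Ideal.Quotient.field M
    ∀ {𝒟 : (Q : Type) → [Group Q] → Prop}, SubCl 𝒟 → ∀ {G : Type} [Group G] [Finite G]
    [(opCore ℓ G).Normal], opCore ℓ G ≤ Subgroup.center G → ∀ {N : Subgroup G}, N.Normal →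
    GoodQE ℓ 𝒟 (FF M) (N.map (QuotientGroup.mk' (opCore ℓ G))) →
    ∀ {χ : G → ℂ}, χ ∈ Irr G → ∀ {ψ : N → ℂ}, ψ ∈ Irr N →
    (∑ᶠ n : N, χ n * starRingEnd ℂ (ψ n)) ≠ 0 → LargeDefect ℓ M ψ → DfIn ℓ M 𝒟 ψ →
    altSum ℓ M χ = 0 := by
  let _ := Ideal.Quotient.field M
  intro 𝒟 h𝒟 G _ _ hn hc N hN hgoodQ χ hχ ψ hψ hχψ hL hS
  have hfact := Fact.mk hℓ
  have hF : GoodF ℓ (FF M) := H50.fld ℓ hℓ M hM
  obtain ⟨e, he, h1, h2⟩ := H50.bid ℓ hℓ M hM G χ hχ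
  set p : G →* G ⧸ opCore ℓ G := QuotientGroup.mk' (opCore ℓ G) with hp
  have hker : p.ker = opCore ℓ G := QuotientGroup.ker_mk' _
  have hsurj : Function.Surjective p := QuotientGroup.mk'_surjective (opCore ℓ G)
  have hkp : IsPGroup ℓ p.ker := by
    rw [hker]
    exact H75.opCore_isPGroup hℓ
  have hkc : p.ker ≤ Subgroup.center G := by
    rw [hker]
    exact hc
  have hpos : Pos ℓ (H75.push p e) (N.map p) :=
    H75.pos_rel H96.lemQ_ H50.bid H50.fld hℓ hM hsurj hker hkc hN hχ he h1 hψ hχψ hL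
  have heq := H75.altSum_central H20.nls H20.brm H63.smt H94.nch
    (H50.dic H20.ibn H20.nls H20.brm) hℓ M hM hF hsurj hker hkp hkc χ hχ e he h1 h2
  have hdf : DfE ℓ 𝒟 (H75.push p e) (N.map p) :=
    fst ℓ hℓ M hM 𝒟 h𝒟 G N hN χ hχ ψ hψ hχψ hS e he h1
  have h0 : YY ℓ (⊤ : Subgroup (G ⧸ opCore ℓ G)) (H75.push p e) = 0 :=
    relq ℓ 𝒟 h𝒟 (FF M) hF _ (N.map p) (hN.map p hsurj) hgoodQ _ (H75.push_isIdem hsurj he.1) hpos
      hdf
  rw [h0, mul_zero] at heq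
  rcases mul_eq_zero.1 heq with h | h
  · exact absurd h (by exact_mod_cast (Nat.card_pos (α := G)).ne')
  · exact h

/-- the final theorem -/
theorem finE (relq : RelQEStmt) (fst : FstStmt) (fen : FenStmt) : FinEStmt := by
  intro ℓ hℓ M _ hM 𝒟 h𝒟 G _ _ hc N hN hgood χ hχ ψ hψ hχψ hL hS
  let _ := Ideal.Quotient.field M
  have hfact := Fact.mk hℓ
  have hF : GoodF ℓ (FF M) := H50.fld ℓ hℓ M hM
  have hn := H75.opCore_normal (A := G) ℓ
  refine finI relq fst hℓ hM h𝒟 hc hN ?_ hχ hψ hχψ hL hS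
  intro S _ _ hS hlS hNS D _ _ hO hD hinv hcc e' he' hcl hpos' hdf'
  apply H9.addStmt ℓ (FF M) hF D ⊤ inferInstance e' he'
  intro f hf hef
  have hfe : mulF f e' = f := by
    rw [H75.mulF_comm_cl hf.1.1]
    exact hef
  have hposf : Pos ℓ f ⊤ := H46.pos_mono hf.1 hfe hpos'
  have hdff : DfE ℓ 𝒟 f ⊤ := DfE.le hF he'.1 hf.1.1 hef hdf'
  obtain ⟨ϑ, hϑ, k1, k2, k3⟩ := H75.block_case H20.nls H20.brm H63.smt H94.nch
    (H50.dic H20.ibn H20.nls H20.brm) H50.bid H50.chp H50.ldp H50.fld hℓ hM hO hf hposf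
  have hdi : DfIn ℓ M 𝒟 ϑ := fen ℓ hℓ M hM 𝒟 D hO f hf hdff ϑ hϑ k1
  rw [← k3, hgood S hS hlS (hNS.of_surjective
    ((QuotientGroup.mk' (opCore ℓ G)).subgroupMap N)
    ((QuotientGroup.mk' (opCore ℓ G)).subgroupMap_surjective N)) D
    hO hcc hD (hinv.of_surjective (QuotientGroup.mk' (opCore ℓ G))
      (QuotientGroup.mk'_surjective (opCore ℓ G))) ϑ hϑ (H75.faithful_char hf hef hcl hϑ k1) k2 hdi,
    mul_zero]

end Pool.Agent.DF
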