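import Pool.Agent.Helper66_DF.GoodE
import Pool.Agent.Helper66_PP.StmtsLQ
import Pool.Agent.Helper67_PP.StmtsU
import Pool.Agent.Helper98_PP.StmtsR2b

/-!
# Squad DF: the statements of the reduction with control of the defect groups

Text: `AWC_DF.md`.
-/

open scoped BigOperators

noncomputable section

namespace Pool.Agent.DF

open Pool.Agent.Helper51_AWC Pool.Agent.Helper79_WRA Pool.Agent.PP

/-- COV: a nonzero central idempotent `e` over the stable block `b` of `Y` does not vanish on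
`C(Q)` if `b` does not, `Q` an `ℓ`-subgroup of `Y`. -/
def CovEStmt : Prop := ∀ (ℓ : ℕ) (F : Type) [Field F], GoodF ℓ F →
  ∀ (X : Type) [Group X] [Finite X] (Y : Subgroup X), Y.Normal → ∀ b : X → F, SBlk Y b →
  ∀ e : X → F, IsIdem e → e ≠ 0 → mulF e b = e → ∀ Q : Subgroup X, Q ≤ Y → IsPGroup ℓ Q →
  (∃ g ∈ Subgroup.centralizer (Q : Set X), b g ≠ 0) →
    ∃ g ∈ Subgroup.centralizer (Q : Set X), e g ≠ 0

/-- DZE: `DzStmt` with control of the defect groups. -/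
def DzEStmt : Prop := ∀ (ℓ : ℕ) (F : Type) [Field F], GoodF ℓ F → ∀ (G : Type) [Group G] [Finite G]
  (N M : Subgroup G) [N.Normal] (b e : G → F), NB ℓ N b → M.Normal → N ≤ M → IsIdem e →
  mulF e b = e → Pos ℓ e M → ∃ (D : Type) (_ : Group D) (_ : Finite D) (W M' : Subgroup D)
    (φ : M' →* (M ⧸ N.subgroupOf M)) (ψ : D →* G ⧸ N) (f : D → F),
    Function.Surjective ψ ∧ ψ.ker = W ∧
    W ≤ Subgroup.center D ∧ ¬ ℓ ∣ Nat.card W ∧ M'.Normal ∧ W ≤ M' ∧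
    Function.Surjective φ ∧ φ.ker = W.subgroupOf M' ∧
    W.relIndex M' = N.relIndex M ∧ IsIdem f ∧ Pos ℓ f M' ∧
    (∀ 𝒟 : (Q : Type) → [Group Q] → Prop, SubCl 𝒟 → DfE ℓ 𝒟 e M → DfE ℓ 𝒟 f M') ∧
    (Nat.card W : ℤ) * YY ℓ M e = (Nat.card N : ℤ) * YY ℓ M' f

/-- S1E: the case of a simple chief factor. -/
def S1EStmt : Prop := ∀ (ℓ : ℕ) [Fact ℓ.Prime] (𝒟 : (Q : Type) → [Group Q] → Prop), SubCl 𝒟 →
  ∀ (F : Type) [Field F], GoodF ℓ F →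
  ∀ (G : Type) [Group G] [Finite G] (N : Subgroup G), N.Normal → opCore ℓ N = ⊥ →
  NASimple (N ⧸ (Subgroup.center G).subgroupOf N) → GoodPE ℓ 𝒟 F N → YltE ℓ 𝒟 F (mu N) →
  YHE ℓ 𝒟 F N

/-- S1nE: the same with the additional hypothesis that `G / (N C_G(N))` is nilpotent. -/
def S1nEStmt : Prop := ∀ (ℓ : ℕ) [Fact ℓ.Prime] (𝒟 : (Q : Type) → [Group Q] → Prop), SubCl 𝒟 →
  ∀ (F : Type) [Field F], GoodF ℓ F →
  ∀ (G : Type) [Group G] [Finite G] (N : Subgroup G), N.Normal → opCore ℓ N = ⊥ →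
  NASimple (N ⧸ (Subgroup.center G).subgroupOf N) → NilOut N → GoodPE ℓ 𝒟 F N →
  YltE ℓ 𝒟 F (mu N) → YHE ℓ 𝒟 F N

/-- R2E: the case of a nonabelian chief factor that is not simple. -/
def R2EStmt : Prop := ∀ (ℓ : ℕ) [Fact ℓ.Prime] (𝒟 : (Q : Type) → [Group Q] → Prop), SubCl 𝒟 →
  ∀ (F : Type) [Field F], GoodF ℓ F →
  ∀ (G : Type) [Group G] [Finite G] (N : Subgroup G), Chief N → opCore ℓ N = ⊥ →
  (∃ x ∈ N, ∃ y ∈ N, x * y * x⁻¹ * y⁻¹ ∉ Subgroup.center G) →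
  ¬ IsSimpleGroup (N ⧸ (Subgroup.center G).subgroupOf N) → GoodPE ℓ 𝒟 F N → YltE ℓ 𝒟 F (mu N) →
  ∀ e : G → F, IsBlk e → Pos ℓ e N → DfE ℓ 𝒟 e N → ∀ b : N → F, IsBlk b →
    stabF (ext0 N b) = ⊤ → mulF e (ext0 N b) = e → YY ℓ N e = 0

/-- TOP: the main theorem with control of the defect groups. -/
def MainEStmt : Prop := ∀ (ℓ : ℕ) [Fact ℓ.Prime] (𝒟 : (Q : Type) → [Group Q] → Prop), SubCl 𝒟 →
  ∀ (F : Type) [Field F], GoodF ℓ F →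
  ∀ (H : Type) [Group H] [Finite H] (N : Subgroup H), N.Normal → GoodPE ℓ 𝒟 F N → YHE ℓ 𝒟 F N

/-- LQE: normal subgroups of index `ℓ`, for one central idempotent `e`. -/
def LqEStmt : Prop := ∀ (ℓ : ℕ) [Fact ℓ.Prime] (𝒟 : (Q : Type) → [Group Q] → Prop), SubCl 𝒟 →
  ∀ (F : Type) [Field F], GoodF ℓ F →
  ∀ (X : Type) [Group X] [Finite X] (Y X₀ : Subgroup X), Y.Normal → X₀.Normal → Y ≤ X₀ →
  X₀.index = ℓ → ¬ ℓ ∣ Nat.card (Subgroup.centralizer (Y : Set X)) →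
  (∀ (H : Type) [Group H] [Finite H] (i : H →* X) (Y' : Subgroup H), Function.Injective i →
    Y'.Normal → Y'.map i ≤ Y → mu Y' < mu Y → YHE ℓ 𝒟 F Y') →
  ∀ e : X → F, IsIdem e → Pos ℓ e Y → DfE ℓ 𝒟 e Y →
    YY ℓ (Y.subgroupOf X₀) (fun t : X₀ => e t) = 0 → YY ℓ Y e = 0

/-- LQNE: normal subgroups of index a power of `ℓ`. -/
def LqnEStmt : Prop := ∀ (ℓ : ℕ) [Fact ℓ.Prime] (𝒟 : (Q : Type) → [Group Q] → Prop), SubCl 𝒟 →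
  ∀ (F : Type) [Field F], GoodF ℓ F →
  ∀ (X : Type) [Group X] [Finite X] (Y X₀ : Subgroup X), Y.Normal → X₀.Normal → Y ≤ X₀ →
  (∃ n : ℕ, X₀.index = ℓ ^ n) → ¬ ℓ ∣ Nat.card (Subgroup.centralizer (Y : Set X)) →
  (∀ (H : Type) [Group H] [Finite H] (i : H →* X) (Y' : Subgroup H), Function.Injective i →
    Y'.Normal → Y'.map i ≤ Y → mu Y' < mu Y → YHE ℓ 𝒟 F Y') →
  ∀ e : X → F, IsIdem e → Pos ℓ e Y → DfE ℓ 𝒟 e Y →
    YY ℓ (Y.subgroupOf X₀) (fun t : X₀ => e t) = 0 → YY ℓ Y e = 0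

/-- FNLE: the end of the proof of S1, in the group `D`. -/
def FnlEStmt : Prop := ∀ (ℓ : ℕ) [Fact ℓ.Prime] (𝒟 : (Q : Type) → [Group Q] → Prop), SubCl 𝒟 →
  ∀ (F : Type) [Field F], GoodF ℓ F →
  ∀ (D : Type) [Group D] [Finite D] (M : Subgroup D), M.Normal →
  Subgroup.centralizer (M : Set D) = Subgroup.center D → ¬ ℓ ∣ Nat.card (Subgroup.center D) →
  Subgroup.center D ≤ M → GoodPE ℓ 𝒟 F M → YltE ℓ 𝒟 F (mu M) →
  ∀ f : D → F, IsIdem f → Pos ℓ f M → DfE ℓ 𝒟 f M → (Pos ℓ f ⊤ → YY ℓ ⊤ f = 0) → YY ℓ M f = 0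

/-- LQUE: the end of the proof of S1, in the group `D`. -/
def LquEStmt : Prop := ∀ (ℓ : ℕ) [Fact ℓ.Prime] (𝒟 : (Q : Type) → [Group Q] → Prop), SubCl 𝒟 →
  ∀ (F : Type) [Field F], GoodF ℓ F →
  ∀ (S : Type) [Group S] [Finite S], NASimple S →
  ∀ (D : Type) [Group D] [Finite D] (M : Subgroup D), M.Normal → opCore ℓ D = ⊥ →
  NearlySimple D S → Subgroup.centralizer (M : Set D) = Subgroup.center D →
  ¬ ℓ ∣ Nat.card (Subgroup.center D) → Subgroup.center D ≤ M → mu M = Nat.card S →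
  GoodPE ℓ 𝒟 F M → YltE ℓ 𝒟 F (mu M) →
  (∀ (D₀ : Type) [Group D₀] [Finite D₀] (i : D₀ →* D), Function.Injective i →
    opCore ℓ D₀ = ⊥ → NearlySimpleL ℓ D₀ S → ∀ f₀ : D₀ → F, IsIdem f₀ →
    (∀ z ∈ Subgroup.center D₀, z ≠ 1 → ∃ c : F, c ≠ 1 ∧ ∀ x, f₀ (z * x) = c * f₀ x) →
    Pos ℓ f₀ ⊤ → DfE ℓ 𝒟 f₀ ⊤ → YY ℓ ⊤ f₀ = 0) →
  ∀ f : D → F, IsIdem f →
  (∀ z ∈ Subgroup.center D, z ≠ 1 → ∃ c : F, c ≠ 1 ∧ ∀ x, f (z * x) = c * f x) →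
  Pos ℓ f M → DfE ℓ 𝒟 f M → YY ℓ M f = 0

/-- DBNE: the doubling theorem with control of the defect groups. -/
def DblnEStmt : Prop := ∀ (ℓ : ℕ) [Fact ℓ.Prime] (𝒟 : (Q : Type) → [Group Q] → Prop), SubCl 𝒟 →
  ∀ (F : Type) [Field F], GoodF ℓ F →
  ∀ τ : F → ℂ, IsLift τ → ∀ (X : Type) [Group X] [Finite X] (Y : Subgroup X), Y.Normal →
  ∀ f : X → F, SBlk Y f → ¬ DZ ℓ (fun t : Y => f t) → DfE ℓ 𝒟 f Y →
  (∀ (H₁ : Type) [Group H₁] [Finite H₁] (Q₁ : Subgroup H₁), Q₁.Normal → Nonempty (Q₁ ≃* Y) →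
    mu Q₁ ≤ mu Y → (∃ n : ℕ, Subgroup.lowerCentralSeries (⊤ : Subgroup H₁) n ≤
      Q₁ ⊔ Subgroup.centralizer (Q₁ : Set H₁)) →
    (∃ i : H₁ →* X × X, Function.Injective i) → YHE ℓ 𝒟 F Q₁) →
  DAll τ ℓ Y f

/-- CMPE: if `b` does not vanish on `C(P)`, ..., for the components: the block `bK i` under `b`
inherits the control of the defect groups from `b`. -/
def CmpEStmt : Prop := ∀ (ℓ : ℕ) [Fact ℓ.Prime] (𝒟 : (Q : Type) → [Group Q] → Prop), SubCl 𝒟 →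
  ∀ (F : Type) [Field F], GoodF ℓ F →
  ∀ (G : Type) [Group G] [Finite G] (N : Subgroup G) [N.Normal] (b : N → F),
  SBlk N (ext0 N b) → ∀ (I : Type) [Finite I] [Nonempty I] (K : I → Subgroup G)
    (bK : I → G → F) (act : G → Equiv.Perm I), Comps ℓ N b I K bK act →
  DfE ℓ 𝒟 (ext0 N b) N → ∀ i,
    DfE ℓ 𝒟 (fun t : Subgroup.normalizer (K i : Set G) => bK i t)
      ((K i).subgroupOf (Subgroup.normalizer (K i : Set G)))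

/-- VE: two generators of the outer part suffice. -/
def VEStmt : Prop := ∀ (ℓ : ℕ) [Fact ℓ.Prime] (𝒟 : (Q : Type) → [Group Q] → Prop), SubCl 𝒟 →
  ∀ (F : Type) [Field F], GoodF ℓ F →
  ∀ (H : Type) [Group H] [Finite H] (N : Subgroup H), N.Normal → GoodVE ℓ 𝒟 F N →
    GoodPE ℓ 𝒟 F N

/-- STME: the groups `D` with `Z(D) ≤ [D, D]` suffice. -/
def StmEStmt : Prop := ∀ (ℓ : ℕ) [Fact ℓ.Prime] (𝒟 : (Q : Type) → [Group Q] → Prop), SubCl 𝒟 →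
  ∀ (F : Type) [Field F], GoodF ℓ F →
  ∀ (H : Type) [Group H] [Finite H] (N : Subgroup H), N.Normal → GoodQE ℓ 𝒟 F N →
    GoodVE ℓ 𝒟 F N

/-- RELQE: the relative form. -/
def RelQEStmt : Prop := ∀ (ℓ : ℕ) [Fact ℓ.Prime] (𝒟 : (Q : Type) → [Group Q] → Prop), SubCl 𝒟 →
  ∀ (F : Type) [Field F], GoodF ℓ F →
  ∀ (G : Type) [Group G] [Finite G] (N : Subgroup G), N.Normal → GoodQE ℓ 𝒟 F N →
  ∀ e : G → F, IsIdem e → Pos ℓ e N → DfE ℓ 𝒟 e N → YY ℓ ⊤ e = 0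

end Pool.Agent.DF
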