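import Pool.Agent.Helper66_DF.FinE
import Pool.Agent.Helper18_X3.Dnc

/-!
# Squad DF: the final form
-/

open scoped BigOperators

set_option linter.unusedSectionVars false

noncomputable section

namespace Pool.Agent.DF

open Pool.Agent.Helper51_AWC Pool.Agent.Helper79_WRA Pool.Agent.PP

/-- the defect groups of a character of a group with `O_ℓ(D) = 1` -/
theorem DfIn.sylow {ℓ : ℕ} [Fact ℓ.Prime] {M : Ideal (integralClosure ℤ ℂ)}
    {𝒟 : (Q : Type) → [Group Q] → Prop} (h𝒟 : SubCl 𝒟) {D : Type} [Group D] [Finite D]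
    (hD : opCore ℓ D = ⊥) {ϑ : D → ℂ} (h : DfIn ℓ M 𝒟 ϑ) :
    ∃ y : D, ¬ Cong M (omega (MonoidHom.id D) ϑ y) 0 ∧
      ∃ P : Sylow ℓ (Subgroup.centralizer ({y} : Set D)), 𝒟 P := by
  obtain ⟨x, P, hx, hPC, hPp, hPi, P₀, _, f, hP₀, hf⟩ := h
  refine ⟨x, fun hc => hx ?_, ?_⟩
  · obtain ⟨m, hm, hm1⟩ := hc
    rw [sub_zero] at hm1
    have hint : IsIntegral ℤ (omega (MonoidHom.id D) ϑ x) := by
      rw [← hm1]
      exact m.2
    rw [Pool.Agent.Helper79_WRA.red_of hint]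
    have h1 : (⟨omega (MonoidHom.id D) ϑ x, hint⟩ : integralClosure ℤ ℂ) = m :=
      Subtype.ext hm1.symm
    rw [h1]
    exact Ideal.Quotient.eq_zero_iff_mem.2 hm
  · have hp : IsPGroup ℓ (P.subgroupOf (Subgroup.centralizer ({x} : Set D))) :=
      hPp.of_equiv (Subgroup.subgroupOfEquivOfLe hPC).symm
    refine ⟨hp.toSylow hPi, ?_⟩
    have hinj : Function.Injective f := by
      rw [injective_iff_map_eq_one]
      intro u hu
      have h1 := (hf u).1 hu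
      rw [hD, Subgroup.mem_bot] at h1
      exact Subtype.ext h1
    exact h𝒟 (P.subgroupOf (Subgroup.centralizer ({x} : Set D))) P₀
      (f.comp (Subgroup.subgroupOfEquivOfLe hPC).toMonoidHom)
      (hinj.comp (Subgroup.subgroupOfEquivOfLe hPC).injective) hP₀

/-- the final form of the reduction with control of the defect groups -/
theorem final (hfin : FinEStmt) :
    ∀ (ℓ : ℕ) [Fact ℓ.Prime] (M : Ideal (integralClosure ℤ ℂ)) [M.IsMaximal],
      (ℓ : integralClosure ℤ ℂ) ∈ M → ∀ 𝒟 : (Q : Type) → [Group Q] → Prop,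
      (∀ (Q R : Type) [Group Q] [Group R] (j : Q →* R), Function.Injective j → 𝒟 R → 𝒟 Q) →
      ∀ (G : Type) [Group G] [Finite G],
      opCore ℓ G ≤ Subgroup.center G → ∀ N : Subgroup G, N.Normal →
      ∀ χ ∈ Irr G, ∀ ψ ∈ Irr N, (∑ᶠ n : N, χ n * starRingEnd ℂ (ψ n)) ≠ 0 →
        LargeDefect ℓ M ψ →
        (∃ (x : N) (P : Subgroup N), ¬ Cong M (omega (MonoidHom.id N) ψ x) 0 ∧
          P ≤ Subgroup.centralizer ({x} : Set N) ∧ IsPGroup ℓ P ∧
          ¬ ℓ ∣ P.relIndex (Subgroup.centralizer ({x} : Set N)) ∧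
          ∃ (P₀ : Type) (_ : Group P₀) (f : P →* P₀), 𝒟 P₀ ∧
            ∀ u : P, f u = 1 ↔ (u : N) ∈ opCore ℓ N) →
        altSum ℓ M χ ≠ 0 →
        ∃ (S : Type) (_ : Group S) (_ : Finite S) (D : Type) (_ : Group D) (_ : Finite D),
          NonabSimple S ∧ ℓ ∣ Nat.card S ∧ Involves N S ∧
            opCore ℓ D = ⊥ ∧ Subgroup.center D ≤ commutator D ∧ NearlySimpleF ℓ D S ∧
            Involves G (D ⧸ Subgroup.center D) ∧
            ∃ ϑ ∈ Irr D, (∀ z ∈ Subgroup.center D, ϑ z = ϑ 1 → z = 1) ∧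
              altSum ℓ M ϑ ≠ 0 ∧
              (∀ y : D, ¬ Cong M (omega (MonoidHom.id D) ϑ y) 0 →
                ∀ P : Sylow ℓ (Subgroup.centralizer ({y} : Set D)), ¬ IsCyclic P) ∧
              ∃ y : D, ¬ Cong M (omega (MonoidHom.id D) ϑ y) 0 ∧
                ∃ P : Sylow ℓ (Subgroup.centralizer ({y} : Set D)), 𝒟 P := by
  intro ℓ hℓ M _ hM 𝒟 h𝒟 G _ _ hc N hN χ hχ ψ hψ hχψ hL hS h0
  obtain ⟨x, P, hx, hP⟩ := hS
  by_contra hcon
  apply h0
  refine hfin ℓ hℓ.out M hM 𝒟 h𝒟 G hc N hN ?_ χ hχ ψ hψ hχψ hL ⟨x, P, fun h1 => hx ?_, hP⟩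
  · intro S _ _ hS1 hS2 hS3 D _ _ hD hZ hns hinv ϑ hϑ hf hLD hdf
    by_contra h2
    exact hcon ⟨S, inferInstance, inferInstance, D, inferInstance, inferInstance, hS1, hS2, hS3,
      hD, hZ, hns, hinv, ϑ, hϑ, hf, h2, X3.defect_nc ℓ M hM D hD ϑ hϑ hLD h2,
      DfIn.sylow h𝒟 hD hdf⟩
  · have hint : IsIntegral ℤ (omega (MonoidHom.id N) ψ x) :=
      Pool.Agent.Helper51_AWC.omega_integral _ hψ x
    rw [← Pool.Agent.Helper79_WRA.red_eq_iff hint isIntegral_zero, h1,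
      Pool.Agent.Helper79_WRA.red_zero]

end Pool.Agent.DF
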