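import Pool.Agent.Helper66_PP.Pos1
import Pool.Agent.Helper66_PP.StmtsF
import Pool.Agent.Helper66_PP.StmtsJ

/-!
# Squad DF: control of defect groups in the reduction to nearly simple groups

`DfE ℓ 𝒟 e N`: every `ℓ`-subgroup `Q` of `N` with `Br_Q(e) ≠ 0` lies in the class `𝒟`.  The class
`𝒟` of finite groups is closed under subgroups (`SubCl`).
-/

open scoped BigOperators

noncomputable section

namespace Pool.Agent.DF

open Pool.Agent.Helper51_AWC Pool.Agent.Helper79_WRA Pool.Agent.PP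

/-- A class of groups closed under subgroups and isomorphisms. -/
def SubCl (𝒟 : (Q : Type) → [Group Q] → Prop) : Prop :=
  ∀ (Q R : Type) [Group Q] [Group R] (j : Q →* R), Function.Injective j → 𝒟 R → 𝒟 Q

/-- Every `ℓ`-subgroup `Q` of `N` such that `e` does not vanish on `C(Q)` lies in `𝒟`. -/
def DfE (ℓ : ℕ) (𝒟 : (Q : Type) → [Group Q] → Prop) {F H : Type} [Field F] [Group H] (e : H → F)
    (N : Subgroup H) : Prop :=
  ∀ Q : Subgroup H, Q ≤ N → IsPGroup ℓ Q →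
    (∃ g ∈ Subgroup.centralizer (Q : Set H), e g ≠ 0) → 𝒟 Q

section base

variable {ℓ : ℕ} {𝒟 : (Q : Type) → [Group Q] → Prop} {F H X : Type} [Field F] [Group H] [Group X]

/-- transfer along an injective homomorphism -/
theorem DfE.of_inj (h𝒟 : SubCl 𝒟) (i : H →* X) (hi : Function.Injective i) {e : X → F}
    {e' : H → F} (he : ∀ t, e' t ≠ 0 → e (i t) ≠ 0) {N' : Subgroup H} {N : Subgroup X}
    (hN : N'.map i ≤ N) (h : DfE ℓ 𝒟 e N) : DfE ℓ 𝒟 e' N' := by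
  intro Q hQ hp hg
  obtain ⟨g, hg, hg'⟩ := hg
  have h1 : 𝒟 (Q.map i) := by
    refine h (Q.map i) ((Subgroup.map_mono hQ).trans hN) (hp.map i) ⟨i g, ?_, he g hg'⟩
    rw [Subgroup.mem_centralizer_iff]
    rintro _ ⟨q, hq, rfl⟩
    rw [← map_mul, ← map_mul, Subgroup.mem_centralizer_iff.1 hg q hq]
  exact h𝒟 Q (Q.map i) (Q.equivMapOfInjective i hi).toMonoidHom
    (Q.equivMapOfInjective i hi).injective h1

/-- smaller groups -/
theorem DfE.mono {e : H → F} {N' N : Subgroup H} (hN : N' ≤ N) (h : DfE ℓ 𝒟 e N) :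
    DfE ℓ 𝒟 e N' := fun Q hQ hp hg => h Q (hQ.trans hN) hp hg

/-- restriction to a subgroup -/
theorem DfE.sub (h𝒟 : SubCl 𝒟) {e : X → F} {N T : Subgroup X} (h : DfE ℓ 𝒟 e N)
    {N' : Subgroup T} (hN : N'.map T.subtype ≤ N) : DfE ℓ 𝒟 (fun t : T => e t) N' :=
  h.of_inj h𝒟 T.subtype T.subtype_injective (fun _ ht => ht) hN

/-- the Brauer map and restriction to a subgroup -/
theorem DfE.br (h𝒟 : SubCl 𝒟) {e : X → F} {N T : Subgroup X} (P : Subgroup X)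
    (h : DfE ℓ 𝒟 e N) {N' : Subgroup T} (hN : N'.map T.subtype ≤ N) :
    DfE ℓ 𝒟 (fun t : T => br P e t) N' := by
  classical
  refine h.of_inj h𝒟 T.subtype T.subtype_injective (fun t ht => ?_) hN
  intro h0
  apply ht
  have h1 : e (t : X) = 0 := h0
  unfold Pool.Agent.PP.br
  rw [h1, ite_self]

/-- factors of products of invariant elements -/
theorem DfE.factor [Finite H] (hF : GoodF ℓ F) {a b : H → F} {N : Subgroup H}
    (ha : ∀ n ∈ N, ∀ t, a (n * t * n⁻¹) = a t) (hb : ∀ n ∈ N, ∀ t, b (n * t * n⁻¹) = b t)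
    (h : DfE ℓ 𝒟 a N) : DfE ℓ 𝒟 (mulF a b) N := by
  intro Q hQ hp hg
  obtain ⟨g, hg, hg'⟩ := hg
  by_contra hQ'
  apply hg'
  have h0 : Pool.Agent.PP.br Q a = 0 := by
    funext t
    by_cases ht : t ∈ Subgroup.centralizer (Q : Set H)
    · rw [H66.br_of_mem ht]
      by_contra h1
      exact hQ' (h Q hQ hp ⟨t, ht, h1⟩)
    · rw [H66.br_of_not_mem ht]
      rfl
  have h1 := H66.br_mulF hF hp (a := a) (b := b) (fun p hp t => ha p (hQ hp) t)
    (fun p hp t => hb p (hQ hp) t)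
  have h2 := congrFun h1 g
  rw [H66.br_of_mem hg] at h2
  rw [h2, h0]
  unfold mulF
  simp

/-- a smaller idempotent -/
theorem DfE.le [Finite H] (hF : GoodF ℓ F) {e f : H → F} {N : Subgroup H} (he : IsCl e)
    (hf : IsCl f) (hef : mulF e f = f) (h : DfE ℓ 𝒟 e N) : DfE ℓ 𝒟 f N := by
  have h1 := DfE.factor hF (a := e) (b := f) (N := N) (fun n _ t => he t n) (fun n _ t => hf t n) h
  rwa [hef] at h1

end base

/-! ## The hypotheses on nearly simple groups -/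

/-- `GoodP` only for idempotents satisfying `DfE`. -/
def GoodPE (ℓ : ℕ) (𝒟 : (Q : Type) → [Group Q] → Prop) (F : Type) [Field F] {H : Type} [Group H]
    (N : Subgroup H) : Prop :=
  ∀ (S : Type) [Group S] [Finite S], NonabSimple S → ℓ ∣ Nat.card S → Involves N S →
  ∀ (D : Type) [Group D] [Finite D], opCore ℓ D = ⊥ → NearlySimpleL ℓ D S →
  Involves H (D ⧸ Subgroup.center D) → ∀ e : D → F, IsIdem e →
  (∀ z ∈ Subgroup.center D, z ≠ 1 → ∃ c : F, c ≠ 1 ∧ ∀ x, e (z * x) = c * e x) →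
  Pos ℓ e ⊤ → DfE ℓ 𝒟 e ⊤ → YY ℓ ⊤ e = 0

/-- `GoodV` only for idempotents satisfying `DfE`. -/
def GoodVE (ℓ : ℕ) (𝒟 : (Q : Type) → [Group Q] → Prop) (F : Type) [Field F] {H : Type} [Group H]
    (N : Subgroup H) : Prop :=
  ∀ (S : Type) [Group S] [Finite S], NonabSimple S → ℓ ∣ Nat.card S → Involves N S →
  ∀ (D : Type) [Group D] [Finite D], opCore ℓ D = ⊥ → NearlySimpleF ℓ D S →
  Involves H (D ⧸ Subgroup.center D) → ∀ e : D → F, IsIdem e →
  (∀ z ∈ Subgroup.center D, z ≠ 1 → ∃ c : F, c ≠ 1 ∧ ∀ x, e (z * x) = c * e x) →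
  Pos ℓ e ⊤ → DfE ℓ 𝒟 e ⊤ → YY ℓ ⊤ e = 0

/-- `GoodQ` only for idempotents satisfying `DfE`. -/
def GoodQE (ℓ : ℕ) (𝒟 : (Q : Type) → [Group Q] → Prop) (F : Type) [Field F] {H : Type} [Group H]
    (N : Subgroup H) : Prop :=
  ∀ (S : Type) [Group S] [Finite S], NonabSimple S → ℓ ∣ Nat.card S → Involves N S →
  ∀ (D : Type) [Group D] [Finite D], opCore ℓ D = ⊥ → NearlySimpleF ℓ D S →
  Involves H (D ⧸ Subgroup.center D) → Subgroup.center D ≤ commutator D →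
  ∀ e : D → F, IsIdem e →
  (∀ z ∈ Subgroup.center D, z ≠ 1 → ∃ c : F, c ≠ 1 ∧ ∀ x, e (z * x) = c * e x) →
  Pos ℓ e ⊤ → DfE ℓ 𝒟 e ⊤ → YY ℓ ⊤ e = 0

/-- `YH` only for idempotents satisfying `DfE`. -/
def YHE (ℓ : ℕ) (𝒟 : (Q : Type) → [Group Q] → Prop) (F : Type) [Field F] {H : Type} [Group H]
    [Finite H] (N : Subgroup H) : Prop :=
  ∀ e : H → F, IsIdem e → Pos ℓ e N → DfE ℓ 𝒟 e N → YY ℓ N e = 0

/-- the statement `YHE` for all pairs with `mu N < m` for which `GoodPE` holds -/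
def YltE (ℓ : ℕ) (𝒟 : (Q : Type) → [Group Q] → Prop) (F : Type) [Field F] (m : ℕ) : Prop :=
  ∀ (H : Type) [Group H] [Finite H] (N : Subgroup H), N.Normal → mu N < m → GoodPE ℓ 𝒟 F N →
    YHE ℓ 𝒟 F N

end Pool.Agent.DF
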