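import Pool.Agent.Helper66_DF.Base
import Pool.Agent.Helper18_PP.Good

/-!
# Squad DF: the hypothesis `GoodPE` passes to subgroups, quotients, central extensions and subgroups
of `H × H`
-/

noncomputable section

namespace Pool.Agent.DF

open Pool.Agent.Helper51_AWC Pool.Agent.Helper79_WRA Pool.Agent.PP

variable {ℓ : ℕ} {𝒟 : (Q : Type) → [Group Q] → Prop} {F : Type} [Field F] {H H' : Type} [Group H]
  [Group H']

/-- general form -/
theorem GoodPE.trans {N : Subgroup H} {N' : Subgroup H'} (h : GoodPE ℓ 𝒟 F N)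
    (hN : ∀ (S : Type) [Group S], NonabSimple S → Involves N' S → Involves N S)
    (hH : ∀ (A S : Type) [Group A] [Group S] (T : Subgroup A), IsSocle T S → Involves H' A →
      Involves H A) : GoodPE ℓ 𝒟 F N' := by
  intro S _ _ hS hdvd hI D _ _ h1 h2 h3 e he hz hp hdf
  obtain ⟨T, hT⟩ := h2.nearlySimple.socle hS
  exact h S hS hdvd (hN S hS hI) D h1 h2 (hH _ S T hT h3) e he hz hp hdf

/-- along a homomorphism with central kernel (for example an injective one) -/
theorem GoodPE.of_central {N : Subgroup H} {N' : Subgroup H'} (h : GoodPE ℓ 𝒟 F N) (p : H' →* H)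
    (hp : p.ker ≤ Subgroup.center H') (hN : N'.map p ≤ N) : GoodPE ℓ 𝒟 F N' := by
  refine h.trans (fun S _ hS hI => ?_) (fun A S _ _ T hT hI => hT.involves_central p hp hI)
  refine hI.of_central hS ((p.comp N'.subtype).codRestrict N fun x => hN ⟨x, x.2, rfl⟩) ?_
  intro x hx
  have hx1 : p x = 1 := congrArg Subtype.val hx
  have hx2 : (x : H') ∈ Subgroup.center H' := hp hx1
  rw [Subgroup.mem_center_iff]
  intro y
  exact Subtype.ext (Subgroup.mem_center_iff.1 hx2 y)

/-- subgroups of subgroups -/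
theorem GoodPE.of_subgroup {N : Subgroup H} (h : GoodPE ℓ 𝒟 F N) (T : Subgroup H) (N' : Subgroup T)
    (hN : N'.map T.subtype ≤ N) : GoodPE ℓ 𝒟 F N' := by
  refine h.of_central T.subtype ?_ hN
  rw [(MonoidHom.ker_eq_bot_iff _).2 T.subtype_injective]
  exact bot_le

theorem GoodPE.subgroupOf {N N' : Subgroup H} (h : GoodPE ℓ 𝒟 F N) (T : Subgroup H) (hN : N' ≤ N) :
    GoodPE ℓ 𝒟 F (N'.subgroupOf T) := by
  refine h.of_subgroup T _ ?_
  rw [Subgroup.subgroupOf_map_subtype]
  exact inf_le_left.trans hN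

theorem GoodPE.of_le {N N' : Subgroup H} (h : GoodPE ℓ 𝒟 F N) (hN : N' ≤ N) : GoodPE ℓ 𝒟 F N' :=
  h.trans (fun S _ _ hI => hI.of_le hN) (fun A S _ _ T _ hI => hI)

/-- quotients -/
theorem GoodPE.of_quot {N : Subgroup H} {N' : Subgroup H'} (h : GoodPE ℓ 𝒟 F N) (q : H →* H')
    (hq : Function.Surjective q) (hN : N' ≤ N.map q) : GoodPE ℓ 𝒟 F N' := by
  refine h.trans (fun S _ hS hI => ?_) (fun A S _ _ T _ hI => hI.of_surjective q hq)
  have h1 : Involves (N.map q) S := hI.of_le hN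
  refine h1.of_surjective ((q.comp N.subtype).codRestrict (N.map q) fun x => ⟨x, x.2, rfl⟩) ?_
  rintro ⟨_, x, hx, rfl⟩
  exact ⟨⟨x, hx⟩, rfl⟩

/-- subgroups of `H × H` -/
theorem GoodPE.of_prod {N : Subgroup H} {N' : Subgroup H'} (h : GoodPE ℓ 𝒟 F N) (i : H' →* H × H)
    (hi : Function.Injective i) (j : N' →* N) (hj : Function.Injective j) : GoodPE ℓ 𝒟 F N' :=
  h.trans (fun S _ _ hI => hI.of_injective j hj)
    (fun A S _ _ T hT hI => hT.involves_prod i hi hI)

/-- the quotients of central extensions -/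
theorem GoodPE.cover {N : Subgroup H} (h : GoodPE ℓ 𝒟 F N) {E : Type} [Group E] (p : E →* H)
    (hp : p.ker ≤ Subgroup.center E) (K : Subgroup E) [K.Normal] :
    GoodPE ℓ 𝒟 F ((N.comap p).map (QuotientGroup.mk' K)) :=
  (h.of_central p hp (N' := N.comap p) (Subgroup.map_comap_le p N)).of_quot
    (QuotientGroup.mk' K) (QuotientGroup.mk'_surjective K) le_rfl

end Pool.Agent.DF
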